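import Mathlib

/-!
# MP_8ae0c1_ag, T7: lower bounds for the dimension in a Noetherian space
-/

set_option autoImplicit false

open TopologicalSpace

namespace Pool.Agent.Lib.MP_8ae0c1_agG

variable {S : Type*} [TopologicalSpace S]

/-- `E` contains an irreducible closed set of dimension at least `n` (infinite if `n > 0`). -/
def Big (n : ℕ) (E : Set S) : Prop :=
  ∃ s : LTSeries (IrreducibleCloseds S), s.length = n ∧
    (s (Fin.last _) : Set S) ⊆ E ∧ (n ≠ 0 → (s (Fin.last _) : Set S).Infinite)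

theorem Big.mono {n : ℕ} {E E' : Set S} (h : Big n E) (hE : E ⊆ E') : Big n E' := by
  obtain ⟨s, h1, h2, h3⟩ := h
  exact ⟨s, h1, h2.trans hE, h3⟩

theorem big_zero {E : Set S} (hE : IsClosed E) {x : S} (hx : x ∈ E) : Big 0 E := by
  refine ⟨RelSeries.singleton _ ⟨closure {x}, isIrreducible_singleton.closure, isClosed_closure⟩,
    rfl, ?_, fun h => (h rfl).elim⟩
  exact closure_minimal (Set.singleton_subset_iff.2 hx) hE

/-- Infinitely many irreducible closed sets `G j` lie in one irreducible closed subset of `E`. -/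
theorem exists_irreducible_of_infinite [NoetherianSpace S] {J : Type*} {I : Set J}
    (hI : I.Infinite) {E : Set S} (hE : IsClosed E) (G : J → IrreducibleCloseds S)
    (hG : ∀ j ∈ I, (G j : Set S) ⊆ E) :
    ∃ G' : IrreducibleCloseds S, (G' : Set S) ⊆ E ∧ {j ∈ I | G j ≤ G'}.Infinite := by
  obtain ⟨T, hTf, hTc, hTi, hTE⟩ := NoetherianSpace.exists_finite_set_isClosed_irreducible hE
  have hsub : ∀ j ∈ I, ∃ t ∈ T, (G j : Set S) ⊆ t := by
    intro j hj
    have h1 := isIrreducible_iff_sUnion_isClosed.1 (G j).isIrreducible hTf.toFinset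
      (fun z hz => hTc z (hTf.mem_toFinset.1 hz)) (by
        have h2 := hG j hj
        rw [hTE] at h2
        simpa using h2)
    obtain ⟨t, ht, h2⟩ := h1
    exact ⟨t, hTf.mem_toFinset.1 ht, h2⟩
  have hex : ∃ t ∈ T, {j ∈ I | (G j : Set S) ⊆ t}.Infinite := by
    by_contra hcon
    push Not at hcon
    have h1 : (⋃ t ∈ T, {j ∈ I | (G j : Set S) ⊆ t}).Finite :=
      hTf.biUnion fun t ht => hcon t ht
    refine hI (h1.subset ?_)
    intro j hj
    obtain ⟨t, ht, h2⟩ := hsub j hj
    simp only [Set.mem_iUnion]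
    exact ⟨t, ht, hj, h2⟩
  obtain ⟨t, ht, hinf⟩ := hex
  refine ⟨⟨t, hTi t ht, hTc t ht⟩, ?_, hinf⟩
  rw [hTE]
  exact Set.subset_sUnion_of_mem ht

theorem exists_lt_of_infinite {J : Type*} {I : Set J} (hI : I.Infinite) {E : Set S}
    (F : J → Set S) (G : J → IrreducibleCloseds S) (hGF : ∀ j ∈ I, (G j : Set S) ⊆ F j)
    (hfin : ∀ x ∈ E, {j ∈ I | x ∈ F j}.Finite) {G' : IrreducibleCloseds S}
    (hG'E : (G' : Set S) ⊆ E) (hle : ∀ j ∈ I, G j ≤ G') :
    (∃ j ∈ I, G j < G') ∧ (G' : Set S).Infinite := by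
  constructor
  · by_contra hcon
    push Not at hcon
    obtain ⟨x, hx⟩ := G'.isIrreducible.nonempty
    have h1 : {j ∈ I | x ∈ F j} = I := by
      ext j
      constructor
      · exact fun h => h.1
      · intro hj
        refine ⟨hj, ?_⟩
        have h2 : G j = G' := by
          by_contra hne
          exact hcon j hj (lt_of_le_of_ne (hle j hj) hne)
        have h3 : x ∈ (G j : Set S) := by
          rw [h2]
          exact hx
        exact hGF j hj h3
    have h4 := hfin x (hG'E hx)
    rw [h1] at h4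
    exact hI h4
  · intro hfin'
    have h1 : (⋃ x ∈ (G' : Set S), {j ∈ I | x ∈ F j}).Finite :=
      hfin'.biUnion fun x hx => hfin x (hG'E hx)
    refine hI (h1.subset ?_)
    intro j hj
    obtain ⟨x, hx⟩ := (G j).isIrreducible.nonempty
    simp only [Set.mem_iUnion]
    exact ⟨x, hle j hj hx, hj, hGF j hj hx⟩

/-- One more dimension. -/
theorem Big.step [NoetherianSpace S] {n : ℕ} {E : Set S} (hE : IsClosed E) {J : Type*}
    (F : J → Set S) {I : Set J} (hI : I.Infinite) (hB : ∀ j ∈ I, Big n (E ∩ F j))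
    (hfin : ∀ x ∈ E, {j ∈ I | x ∈ F j}.Finite) : Big (n + 1) E := by
  classical
  have hne : Nonempty (LTSeries (IrreducibleCloseds S)) := by
    obtain ⟨j, hj⟩ := hI.nonempty
    obtain ⟨s, -⟩ := hB j hj
    exact ⟨s⟩
  choose! s h1 h2 h3 using hB
  let G : J → IrreducibleCloseds S := fun j => s j (Fin.last _)
  obtain ⟨G', hG'E, hinf⟩ := exists_irreducible_of_infinite hI hE G
    fun j hj => (h2 j hj).trans Set.inter_subset_left
  obtain ⟨⟨j, hj, hlt⟩, hG'⟩ := exists_lt_of_infinite (E := E) hinf F G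
    (fun j hj => (h2 j hj.1).trans Set.inter_subset_right)
    (fun x hx => (hfin x hx).subset fun j hj => ⟨hj.1.1, hj.2⟩) hG'E (fun j hj => hj.2)
  refine ⟨(s j).snoc G' hlt, ?_, ?_, ?_⟩
  · have h4 : ((s j).snoc G' hlt).length = (s j).length + 1 := rfl
    rw [h4, h1 j hj.1]
  · have h5 : ((s j).snoc G' hlt) (Fin.last _) = G' := RelSeries.last_snoc _ _ _
    rw [h5]
    exact hG'E
  · intro _
    have h5 : ((s j).snoc G' hlt) (Fin.last _) = G' := RelSeries.last_snoc _ _ _
    rw [h5]
    exact hG'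

/-- The last step: an irreducible component which contains infinitely many of the sets, of
dimension at least `n + 1`. -/
theorem Big.component [NoetherianSpace S] {n : ℕ} {J : Type*}
    (F : J → Set S) {I : Set J} (hI : I.Infinite) (hB : ∀ j ∈ I, Big n (F j))
    (hfin : ∀ x, {j ∈ I | x ∈ F j}.Finite) :
    ∃ M ∈ irreducibleComponents S, ((n + 1 : ℕ) : WithBot ℕ∞) ≤ topologicalKrullDim M ∧
      {j ∈ I | n ≠ 0 → (M ∩ F j).Infinite}.Infinite := by
  classical
  have hne : Nonempty (LTSeries (IrreducibleCloseds S)) := by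
    obtain ⟨j, hj⟩ := hI.nonempty
    obtain ⟨s, -⟩ := hB j hj
    exact ⟨s⟩
  choose! s h1 h2 h3 using hB
  let G : J → IrreducibleCloseds S := fun j => s j (Fin.last _)
  obtain ⟨G₀, -, hinf⟩ := exists_irreducible_of_infinite hI isClosed_univ G
    fun j hj => Set.subset_univ _
  obtain ⟨M, hM, hMsub⟩ :=
    exists_mem_irreducibleComponents_subset_of_isIrreducible (G₀ : Set S) G₀.isIrreducible
  have hMc : IsClosed M := isClosed_of_mem_irreducibleComponents M hM
  let G' : IrreducibleCloseds S := ⟨M, hM.1, hMc⟩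
  have hle : ∀ j ∈ {j ∈ I | G j ≤ G₀}, G j ≤ G' := fun j hj x hx => hMsub (hj.2 hx)
  obtain ⟨⟨j, hj, hlt⟩, hG'⟩ := exists_lt_of_infinite (E := Set.univ) hinf F G
    (fun j hj => h2 j hj.1) (fun x _ => (hfin x).subset fun j hj => ⟨hj.1.1, hj.2⟩)
    (Set.subset_univ _) hle
  refine ⟨M, hM, ?_, ?_⟩
  · -- the chain `s j`, `G'` of closed irreducible subsets of `M`
    let t : LTSeries (IrreducibleCloseds S) := (s j).snoc G' hlt
    have ht : t.length = n + 1 := by
      have h4 : ((s j).snoc G' hlt).length = (s j).length + 1 := rfl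
      rw [h4, h1 j hj.1]
    have hlast : t (Fin.last _) = G' := RelSeries.last_snoc _ _ _
    have hi : ∀ i, (t i : Set S) ⊆ M := fun i => by
      have h5 : t i ≤ t (Fin.last _) := LTSeries.monotone t (Fin.le_last i)
      rw [hlast] at h5
      exact h5
    have hirr : ∀ i, IsIrreducible ((Subtype.val : M → S) ⁻¹' (t i : Set S)) := by
      intro i
      refine ⟨?_, ?_⟩
      · obtain ⟨x, hx⟩ := (t i).isIrreducible.nonempty
        exact ⟨⟨x, hi i hx⟩, hx⟩
      · intro u v hu hv hu' hv'
        obtain ⟨u', hu1, rfl⟩ := isOpen_induced_iff.1 hu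
        obtain ⟨v', hv1, rfl⟩ := isOpen_induced_iff.1 hv
        obtain ⟨a, ha, ha'⟩ := hu'
        obtain ⟨b, hb, hb'⟩ := hv'
        obtain ⟨x, hx, hx1, hx2⟩ := (t i).isIrreducible.isPreirreducible u' v' hu1 hv1
          ⟨a, ha, ha'⟩ ⟨b, hb, hb'⟩
        exact ⟨⟨x, hi i hx⟩, hx, hx1, hx2⟩
    let u : Fin (t.length + 1) → IrreducibleCloseds M := fun i =>
      ⟨Subtype.val ⁻¹' (t i : Set S), hirr i, (t i).isClosed.preimage continuous_subtype_val⟩
    have hu : ∀ i : Fin t.length, u i.castSucc < u i.succ := fun i => by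
      have h1 : (t i.castSucc) < (t i.succ) := t.step i
      have hle1 : u i.castSucc ≤ u i.succ := fun x hx => h1.le hx
      refine lt_of_le_of_ne hle1 ?_
      intro heq
      have h2 : (Subtype.val : M → S) ⁻¹' (t i.castSucc : Set S) =
          (Subtype.val : M → S) ⁻¹' (t i.succ : Set S) :=
        congrArg (fun T : IrreducibleCloseds M => (T : Set M)) heq
      have h3 : (Subtype.val : M → S) '' ((Subtype.val : M → S) ⁻¹' (t i.castSucc : Set S)) =
          (Subtype.val : M → S) '' ((Subtype.val : M → S) ⁻¹' (t i.succ : Set S)) := by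
        rw [h2]
      have hr : ∀ i, (t i : Set S) ⊆ Set.range (Subtype.val : M → S) := fun i => by
        rw [Subtype.range_coe]
        exact hi i
      rw [Set.image_preimage_eq_of_subset (hr _), Set.image_preimage_eq_of_subset (hr _)] at h3
      exact h1.ne (IrreducibleCloseds.ext h3)
    let r : LTSeries (IrreducibleCloseds M) :=
      { length := t.length
        toFun := u
        step := hu }
    have h6 := Order.LTSeries.length_le_krullDim r
    have h7 : r.length = n + 1 := ht
    rw [h7] at h6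
    exact h6
  · refine hinf.mono ?_
    intro j hj
    refine ⟨hj.1, fun hn => ?_⟩
    refine (h3 j hj.1 hn).mono ?_
    intro x hx
    exact ⟨hle j hj hx, h2 j hj.1 hx⟩

end Pool.Agent.Lib.MP_8ae0c1_agG
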