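import Pool.Agent.Lib.MP_8ae0c1_ag.HeightB
import Pool.Agent.Lib.MP_8ae0c1_agG.Pigeon

/-!
# MP_8ae0c1_ag, T7 (even heights): basic definitions
-/

set_option autoImplicit false

open Pool.Agent.Lib.MP_8ae0c1_ag hiding xR yR
open EllFF

namespace Pool.Agent.Lib.MP_8ae0c1_agG

noncomputable section

variable {l : ℂ}

/-- A linear form applied to `v`. -/
def dot {A : Type} [CommRing A] [Algebra ℂ A] (a : Fin 3 → ℂ) (v : Fin 3 → A) : A :=
  algebraMap ℂ A (a 0) * v 0 + algebraMap ℂ A (a 1) * v 1 + algebraMap ℂ A (a 2) * v 2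

/-- The sections whose value at `P` satisfies the linear equation `a`. -/
def lin (d : ℕ) (P : Pt0 l) (a : Fin 3 → ℂ) : Set (SecD l d) :=
  {s | ∀ c : Fin 4 → ℂ, Coord l s.1 P.1 c → a 0 * c 0 + a 1 * c 1 + a 2 * c 2 = 0}

/-- The sections in the plane `a`. -/
def plane (l : ℂ) (d : ℕ) (a : Fin 3 → ℂ) : Set (SecD l d) := {s | ∀ P : Pt0 l, s ∈ lin d P a}

theorem isClosed_zero (d m : ℕ) (P : Fin m → Pt0 l) (G : MvPolynomial (Fin m × Fin 4) ℂ) :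
    IsClosed (zero l d m P G) := by
  rw [← isOpen_compl_iff]
  exact TopologicalSpace.isOpen_generateFrom_of_mem ⟨m, P, G, rfl⟩

theorem isClosed_lin (d : ℕ) (P : Pt0 l) (a : Fin 3 → ℂ) : IsClosed (lin d P a) := by
  have h : lin d P a = zero l d 1 (fun _ => P)
      (MvPolynomial.C (a 0) * MvPolynomial.X (0, 0) + MvPolynomial.C (a 1) * MvPolynomial.X (0, 1) +
        MvPolynomial.C (a 2) * MvPolynomial.X (0, 2)) := by
    ext s
    constructor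
    · intro hs c hc
      simp only [map_add, map_mul, MvPolynomial.eval_C, MvPolynomial.eval_X]
      exact hs _ (hc 0)
    · intro hs c hc
      have h1 := hs (fun k => c k.2) (fun _ => hc)
      simpa only [map_add, map_mul, MvPolynomial.eval_C, MvPolynomial.eval_X] using h1
  rw [h]
  exact isClosed_zero _ _ _ _

theorem isClosed_plane (d : ℕ) (a : Fin 3 → ℂ) : IsClosed (plane l d a) := by
  have h : plane l d a = ⋂ P : Pt0 l, lin d P a := by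
    ext s
    simp [plane]
  rw [h]
  exact isClosed_iInter fun P => isClosed_lin d P a

/-- A tangent line of the quartic `v₀⁴ + v₁⁴ + v₂⁴ = 0` at `p = (p0, p1, 1)`, given by
`p0³ v₀ + p1³ v₁ + v₂ = 0`. With `v = Z (p0, p1, 1) + T (p1³, -p0³, 0)` the quartic form is
`C T² (T - e1 Z) (T - e2 Z)`. -/
structure Tan where
  p0 : ℂ
  p1 : ℂ
  e1 : ℂ
  e2 : ℂ
  C : ℂ
  hC : C ≠ 0
  he : e1 ≠ e2
  h0 : p0 ≠ 0
  hp : p0 ^ 4 + p1 ^ 4 + 1 = 0
  hC1 : C = -(1 - 3 * p0 ^ 4 * p1 ^ 4)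
  hC2 : C * (e1 + e2) = -(4 * p0 * p1 * (p0 ^ 4 - p1 ^ 4))
  hC3 : C * (e1 * e2) = -(6 * p0 ^ 2 * p1 ^ 2)

/-- The equation of the tangent line at `(p0, p1, 1)`. -/
def form (p : ℂ × ℂ) : Fin 3 → ℂ := ![p.1 ^ 3, p.2 ^ 3, 1]

/-- `T - e1 Z` as linear form in `v`. -/
def Tan.l1 (τ : Tan) : Fin 3 → ℂ := ![0, -(1 / τ.p0 ^ 3), τ.p1 / τ.p0 ^ 3 - τ.e1]

/-- `T - e2 Z` as linear form in `v`. -/
def Tan.l2 (τ : Tan) : Fin 3 → ℂ := ![0, -(1 / τ.p0 ^ 3), τ.p1 / τ.p0 ^ 3 - τ.e2]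

/-- The good points of the quartic. -/
def good : Set (ℂ × ℂ) := {p | ∃ τ : Tan, τ.p0 = p.1 ∧ τ.p1 = p.2}

/-- Finite sets of points with nonzero `y` and different `x`. -/
def Adm (S : Finset (Pt l)) : Prop :=
  (∀ b ∈ S, b.1.2 ≠ 0) ∧ ∀ b ∈ S, ∀ c ∈ S, b.1.1 = c.1.1 → b = c

open Classical in
/-- `∏ (x - x_b)` -/
def famP (S : Finset (Pt l)) : R l := ∏ b ∈ S, (xR l - algebraMap ℂ (R l) b.1.1)

open Classical in
def famA (S : Finset (Pt l)) (r : Pt l → ℂ) : R l :=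
  ∑ b ∈ S, algebraMap ℂ (R l) (r b * b.1.1) * ∏ c ∈ S.erase b, (xR l - algebraMap ℂ (R l) c.1.1)

open Classical in
def famB (S : Finset (Pt l)) (r : Pt l → ℂ) : R l :=
  ∑ b ∈ S, algebraMap ℂ (R l) (r b * b.1.2) * ∏ c ∈ S.erase b, (xR l - algebraMap ℂ (R l) c.1.1)

/-- `N = y A + x B`, so that `θ = N / (x ∏ (x - x_b)) = ∑ r_b (x_b y + y_b x) / (x (x - x_b))` -/
def famN (S : Finset (Pt l)) (r : Pt l → ℂ) : R l := yR l * famA S r + xR l * famB S r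

/-- `N² / x` -/
def famQ (S : Finset (Pt l)) (r : Pt l → ℂ) : R l :=
  (xR l - 1) * (xR l - algebraMap ℂ (R l) l) * famA S r ^ 2 + 2 * yR l * famA S r * famB S r +
    xR l * famB S r ^ 2

/-- `Z` -/
def famZ (τ : Tan) (S : Finset (Pt l)) (r : Pt l → ℂ) : R l :=
  algebraMap ℂ (R l) (1 / (τ.e2 - τ.e1)) * (famQ S r - algebraMap ℂ (R l) (1 / τ.C) * famP S ^ 2)

/-- `T` -/
def famT (τ : Tan) (S : Finset (Pt l)) (r : Pt l → ℂ) : R l :=
  algebraMap ℂ (R l) (1 / (τ.e2 - τ.e1)) * (algebraMap ℂ (R l) τ.e2 * famQ S r -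
    algebraMap ℂ (R l) (τ.e1 / τ.C) * famP S ^ 2)

/-- The coordinates `v` of the section. -/
def famV (τ : Tan) (S : Finset (Pt l)) (r : Pt l → ℂ) : Fin 3 → R l :=
  ![algebraMap ℂ (R l) τ.p0 * famZ τ S r + algebraMap ℂ (R l) (τ.p1 ^ 3) * famT τ S r,
    algebraMap ℂ (R l) τ.p1 * famZ τ S r - algebraMap ℂ (R l) (τ.p0 ^ 3) * famT τ S r,
    famZ τ S r]

/-- The coordinate `u = x w` of the section. -/
def famU (τ : Tan) (S : Finset (Pt l)) (r : Pt l → ℂ) : R l := famT τ S r * famN S r * famP S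

/-- The value of `θ` at `β`. -/
def theta' (S : Finset (Pt l)) (r : Pt l → ℂ) (β : Pt l) : ℂ :=
  ∑ b ∈ S, r b * ((b.1.1 * β.1.2 + b.1.2 * β.1.1) / (β.1.1 * (β.1.1 - b.1.1)))

end

end Pool.Agent.Lib.MP_8ae0c1_agG
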