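import Pool.Agent.Lib.MP_8ae0c1_agG.Base

/-!
# MP_8ae0c1_ag, T7, leaf T: tangent lines of the quartic
-/

set_option autoImplicit false

open Pool.Agent.Lib.MP_8ae0c1_ag hiding xR yR
open EllFF

namespace Pool.Agent.Lib.MP_8ae0c1_agG

section

variable {A : Type} [CommRing A] [Algebra ℂ A] (τ : Tan)

/-- the point `Z (p0, p1, 1) + T (p1³, -p0³, 0)` -/
def Tan.pt (τ : Tan) (Z T : A) : Fin 3 → A :=
  ![algebraMap ℂ A τ.p0 * Z + algebraMap ℂ A (τ.p1 ^ 3) * T,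
    algebraMap ℂ A τ.p1 * Z - algebraMap ℂ A (τ.p0 ^ 3) * T, Z]

theorem pt_zero (Z T : A) :
    τ.pt Z T 0 = algebraMap ℂ A τ.p0 * Z + algebraMap ℂ A (τ.p1 ^ 3) * T := rfl

theorem pt_one (Z T : A) :
    τ.pt Z T 1 = algebraMap ℂ A τ.p1 * Z - algebraMap ℂ A (τ.p0 ^ 3) * T := rfl

theorem pt_two (Z T : A) : τ.pt Z T 2 = Z := rfl

theorem form_zero (p : ℂ × ℂ) : form p 0 = p.1 ^ 3 := rfl
theorem form_one (p : ℂ × ℂ) : form p 1 = p.2 ^ 3 := rfl
theorem form_two (p : ℂ × ℂ) : form p 2 = 1 := rfl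

theorem quart_pt (Z T : A) : quart (τ.pt Z T) = algebraMap ℂ A τ.C * T ^ 2 *
    (T - algebraMap ℂ A τ.e1 * Z) * (T - algebraMap ℂ A τ.e2 * Z) := by
  have E0 := congrArg (algebraMap ℂ A) τ.hp
  have E1 := congrArg (algebraMap ℂ A) τ.hC1
  have E2 := congrArg (algebraMap ℂ A) τ.hC2
  have E3 := congrArg (algebraMap ℂ A) τ.hC3
  simp only [map_add, map_mul, map_sub, map_neg, map_pow, map_one, map_zero, map_ofNat] at E0 E1 E2 E3
  simp only [quart, pt_zero, pt_one, pt_two, map_pow]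
  set a := algebraMap ℂ A τ.p0
  set b := algebraMap ℂ A τ.p1
  set s := algebraMap ℂ A τ.e1
  set t := algebraMap ℂ A τ.e2
  set c := algebraMap ℂ A τ.C
  linear_combination (Z ^ 4 + 6 * Z ^ 2 * T ^ 2 * a ^ 2 * b ^ 2 +
    4 * Z * T ^ 3 * a * b * (b ^ 4 - a ^ 4) +
    T ^ 4 * ((a ^ 4 + b ^ 4) ^ 2 - (a ^ 4 + b ^ 4) + 1 - 3 * a ^ 4 * b ^ 4)) * E0 -
    T ^ 4 * E1 + Z * T ^ 3 * E2 - Z ^ 2 * T ^ 2 * E3

theorem dot_form (Z T : A) : dot (form (τ.p0, τ.p1)) (τ.pt Z T) = 0 := by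
  have E0 := congrArg (algebraMap ℂ A) τ.hp
  simp only [map_add, map_pow, map_one, map_zero] at E0
  simp only [dot, form_zero, form_one, form_two, pt_zero, pt_one, pt_two, map_pow, map_one]
  linear_combination Z * E0

theorem inv_mul (τ : Tan) : algebraMap ℂ A (1 / τ.p0 ^ 3) * algebraMap ℂ A τ.p0 ^ 3 = 1 := by
  rw [← map_pow, ← map_mul, one_div_mul_cancel (pow_ne_zero 3 τ.h0), map_one]

theorem div_eq (τ : Tan) : algebraMap ℂ A (τ.p1 / τ.p0 ^ 3) =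
    algebraMap ℂ A τ.p1 * algebraMap ℂ A (1 / τ.p0 ^ 3) := by
  rw [← map_mul, mul_one_div]

theorem dot_l1 (Z T : A) : dot τ.l1 (τ.pt Z T) = T - algebraMap ℂ A τ.e1 * Z := by
  have h := inv_mul (A := A) τ
  show algebraMap ℂ A 0 * τ.pt Z T 0 + algebraMap ℂ A (-(1 / τ.p0 ^ 3)) * τ.pt Z T 1 +
    algebraMap ℂ A (τ.p1 / τ.p0 ^ 3 - τ.e1) * τ.pt Z T 2 = _
  rw [map_neg, map_sub, div_eq, map_zero, pt_one, pt_two, map_pow]
  linear_combination T * h

theorem dot_l2 (Z T : A) : dot τ.l2 (τ.pt Z T) = T - algebraMap ℂ A τ.e2 * Z := by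
  have h := inv_mul (A := A) τ
  show algebraMap ℂ A 0 * τ.pt Z T 0 + algebraMap ℂ A (-(1 / τ.p0 ^ 3)) * τ.pt Z T 1 +
    algebraMap ℂ A (τ.p1 / τ.p0 ^ 3 - τ.e2) * τ.pt Z T 2 = _
  rw [map_neg, map_sub, div_eq, map_zero, pt_one, pt_two, map_pow]
  linear_combination T * h

/-- A vector in the plane of the tangent line. -/
theorem eq_pt {v : Fin 3 → A} (h : dot (form (τ.p0, τ.p1)) v = 0) :
    v = τ.pt (v 2) (algebraMap ℂ A (τ.p1 / τ.p0 ^ 3) * v 2 -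
      algebraMap ℂ A (1 / τ.p0 ^ 3) * v 1) := by
  have E0 := congrArg (algebraMap ℂ A) τ.hp
  simp only [map_add, map_pow, map_one, map_zero] at E0
  have hi := inv_mul (A := A) τ
  simp only [dot, form_zero, form_one, form_two, map_pow, map_one] at h
  funext i
  rw [div_eq]
  fin_cases i
  · show v 0 = τ.pt _ _ 0
    rw [pt_zero, map_pow]
    set a := algebraMap ℂ A τ.p0
    set b := algebraMap ℂ A τ.p1
    set j := algebraMap ℂ A (1 / τ.p0 ^ 3)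
    linear_combination j * h - (v 0) * hi - (j * v 2) * E0 + (a * v 2) * hi
  · show v 1 = τ.pt _ _ 1
    rw [pt_one, map_pow]
    set a := algebraMap ℂ A τ.p0
    set b := algebraMap ℂ A τ.p1
    set j := algebraMap ℂ A (1 / τ.p0 ^ 3)
    linear_combination (b * v 2 - v 1) * hi
  · rfl

theorem eq_zero_of_l1_l2 {v : Fin 3 → A} (h : dot (form (τ.p0, τ.p1)) v = 0)
    (h1 : dot τ.l1 v = 0) (h2 : dot τ.l2 v = 0) : v = 0 := by
  have hv := eq_pt τ h
  rw [hv, dot_l1] at h1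
  rw [hv, dot_l2] at h2
  set T := algebraMap ℂ A (τ.p1 / τ.p0 ^ 3) * v 2 - algebraMap ℂ A (1 / τ.p0 ^ 3) * v 1
  have h3 : algebraMap ℂ A (1 / (τ.e2 - τ.e1)) * (algebraMap ℂ A τ.e2 - algebraMap ℂ A τ.e1) = 1 := by
    rw [← map_sub, ← map_mul, one_div_mul_cancel (sub_ne_zero.2 τ.he.symm), map_one]
  have h4 : v 2 = 0 := by
    linear_combination (-(v 2)) * h3 + algebraMap ℂ A (1 / (τ.e2 - τ.e1)) * (h1 - h2)
  have h5 : T = 0 := by
    linear_combination h1 + algebraMap ℂ A τ.e1 * h4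
  rw [hv, h4, h5]
  funext i
  fin_cases i
  · show τ.pt _ _ 0 = 0
    rw [pt_zero, mul_zero, mul_zero, add_zero]
  · show τ.pt _ _ 1 = 0
    rw [pt_one, mul_zero, mul_zero, sub_zero]
  · rfl

/-- The discriminant. -/
theorem Tan.disc (τ : Tan) : τ.C ^ 2 * (τ.e1 - τ.e2) ^ 2 =
    8 * τ.p0 ^ 2 * τ.p1 ^ 2 * (τ.p0 ^ 4 * τ.p1 ^ 4 - 1) := by
  have h1 := τ.hC1
  have h2 := τ.hC2
  have h3 := τ.hC3
  have h0 := τ.hp
  have h4 : τ.C ^ 2 * (τ.e1 - τ.e2) ^ 2 = (τ.C * (τ.e1 + τ.e2)) ^ 2 - 4 * τ.C * (τ.C * (τ.e1 * τ.e2)) := by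
    ring
  rw [h4, h2, h3, h1]
  linear_combination (16 * τ.p0 ^ 2 * τ.p1 ^ 2 * (τ.p0 ^ 4 + τ.p1 ^ 4 - 1)) * h0

theorem Tan.p1_ne (τ : Tan) : τ.p1 ≠ 0 := by
  intro h
  have h1 := τ.disc
  rw [h] at h1
  have h2 : τ.C ^ 2 * (τ.e1 - τ.e2) ^ 2 = 0 := by rw [h1]; ring
  exact mul_ne_zero (pow_ne_zero 2 τ.hC) (pow_ne_zero 2 (sub_ne_zero.2 τ.he)) h2

theorem Tan.prod_ne (τ : Tan) : τ.p0 ^ 4 * τ.p1 ^ 4 ≠ 1 := by
  intro h
  have h1 := τ.disc
  rw [h] at h1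
  have h2 : τ.C ^ 2 * (τ.e1 - τ.e2) ^ 2 = 0 := by rw [h1]; ring
  exact mul_ne_zero (pow_ne_zero 2 τ.hC) (pow_ne_zero 2 (sub_ne_zero.2 τ.he)) h2

/-- Different good points have different tangent lines. -/
theorem cubes_ne {p q : ℂ × ℂ} (hp : p ∈ good) (hq : q ∈ good) (h0 : p.1 ^ 3 = q.1 ^ 3)
    (h1 : p.2 ^ 3 = q.2 ^ 3) : p = q := by
  obtain ⟨τ, e0, e1⟩ := hp
  obtain ⟨σ, f0, f1⟩ := hq
  have hp0 := τ.h0
  have hp1 := τ.p1_ne
  have hpp := τ.prod_ne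
  have hpe := τ.hp
  have hqe := σ.hp
  rw [e0] at hp0
  rw [e1] at hp1
  rw [e0, e1] at hpp hpe
  rw [f0, f1] at hqe
  obtain ⟨a, b⟩ := p
  obtain ⟨c, d⟩ := q
  simp only at *
  -- a ^ 3 (a - c) + b ^ 3 (b - d) = 0
  have h2 : a ^ 3 * (a - c) + b ^ 3 * (b - d) = 0 := by
    linear_combination hpe - hqe - c * h0 - d * h1
  by_cases hac : a = c
  · have h3 : b ^ 3 * (b - d) = 0 := by
      rw [hac, sub_self, mul_zero, zero_add] at h2
      exact h2
    have h4 : b = d := sub_eq_zero.1 ((mul_eq_zero.1 h3).resolve_left (pow_ne_zero 3 hp1))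
    rw [hac, h4]
  by_cases hbd : b = d
  · have h3 : a ^ 3 * (a - c) = 0 := by
      rw [hbd, sub_self, mul_zero, add_zero] at h2
      exact h2
    exact absurd (sub_eq_zero.1 ((mul_eq_zero.1 h3).resolve_left (pow_ne_zero 3 hp0))) hac
  exfalso
  have h3 : a ^ 2 + a * c + c ^ 2 = 0 := by
    have : (a - c) * (a ^ 2 + a * c + c ^ 2) = 0 := by linear_combination h0
    exact (mul_eq_zero.1 this).resolve_left (sub_ne_zero.2 hac)
  have h4 : b ^ 2 + b * d + d ^ 2 = 0 := by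
    have : (b - d) * (b ^ 2 + b * d + d ^ 2) = 0 := by linear_combination h1
    exact (mul_eq_zero.1 this).resolve_left (sub_ne_zero.2 hbd)
  -- (c b - a d) (c b - a d') = 0 with d' = - b - d
  have h5 : (c * b - a * d) * (c * b + a * d + a * b) = 0 := by
    linear_combination b ^ 2 * h3 - a ^ 2 * h4
  rcases mul_eq_zero.1 h5 with h6 | h6
  · -- c / a = d / b
    have h7 : (a - c) * (a ^ 4 + b ^ 4) = 0 := by
      linear_combination a * h2 - b ^ 3 * h6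
    have h8 : a ^ 4 + b ^ 4 = 0 := (mul_eq_zero.1 h7).resolve_left (sub_ne_zero.2 hac)
    have h9 : (1 : ℂ) = 0 := by linear_combination hpe - h8
    exact one_ne_zero h9
  · -- x = c / a, y = d / b, x + y + 1 = 0
    -- a ^ 5 + b ^ 4 (a + c) = 0
    have h7 : (a - c) * (a ^ 5 + b ^ 4 * (a + c)) = 0 := by
      linear_combination a ^ 2 * h2 + a * b ^ 3 * h6 - b ^ 4 * h3
    have h8 : a ^ 5 + b ^ 4 * (a + c) = 0 := (mul_eq_zero.1 h7).resolve_left (sub_ne_zero.2 hac)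
    -- x b ^ 4 = 1 : c b ^ 4 = a
    have h9 : c * b ^ 4 = a := by linear_combination h8 - a * hpe
    -- a ^ 4 = x : a ^ 5 = c
    have hc : c ≠ 0 := by
      intro hc
      rw [hc] at h3
      exact pow_ne_zero 2 hp0 (by linear_combination h3)
    have h10 : a ^ 5 = c := by
      have h12 : c * (a ^ 5 - c) = 0 := by
        linear_combination a * (c * hpe - h9) - h3
      exact sub_eq_zero.1 ((mul_eq_zero.1 h12).resolve_left hc)
    apply hpp
    have h11 : a * (a ^ 4 * b ^ 4 - 1) = 0 := by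
      linear_combination b ^ 4 * h10 + h9
    exact sub_eq_zero.1 ((mul_eq_zero.1 h11).resolve_left hp0)

/-- Two different tangent lines meet in one point. -/
theorem form_form {K : Type} [Field K] [Algebra ℂ K] {p q : ℂ × ℂ} (hp : p ∈ good)
    (hq : q ∈ good) (hpq : p ≠ q) {v : Fin 3 → K} (h1 : dot (form p) v = 0)
    (h2 : dot (form q) v = 0) : ∃ (f : K) (c : Fin 3 → ℂ), v = fun i => f * algebraMap ℂ K (c i) := by
  simp only [dot, form_zero, form_one, form_two, map_one] at h1 h2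
  by_cases hc0 : p.2 ^ 3 = q.2 ^ 3
  · have hc1 : q.1 ^ 3 - p.1 ^ 3 ≠ 0 := by
      intro h
      exact hpq (cubes_ne hp hq (sub_eq_zero.1 h).symm hc0)
    have hi : algebraMap ℂ K (1 / (q.1 ^ 3 - p.1 ^ 3)) *
        (algebraMap ℂ K (q.1 ^ 3) - algebraMap ℂ K (p.1 ^ 3)) = 1 := by
      rw [← map_sub, ← map_mul, one_div_mul_cancel hc1, map_one]
    rw [← hc0] at h2
    have h3 : v 0 = 0 := by
      linear_combination (-(v 0)) * hi + algebraMap ℂ K (1 / (q.1 ^ 3 - p.1 ^ 3)) * (h2 - h1)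
    refine ⟨v 1, ![0, 1, -(p.2 ^ 3)], ?_⟩
    funext i
    fin_cases i
    · show v 0 = v 1 * algebraMap ℂ K 0
      rw [h3, map_zero, mul_zero]
    · show v 1 = v 1 * algebraMap ℂ K 1
      rw [map_one, mul_one]
    · show v 2 = v 1 * algebraMap ℂ K (-(p.2 ^ 3))
      rw [map_neg]
      linear_combination h1 - algebraMap ℂ K (p.1 ^ 3) * h3
  · have hc1 : p.2 ^ 3 - q.2 ^ 3 ≠ 0 := sub_ne_zero.2 hc0
    have hi : algebraMap ℂ K (1 / (p.2 ^ 3 - q.2 ^ 3)) *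
        (algebraMap ℂ K (p.2 ^ 3) - algebraMap ℂ K (q.2 ^ 3)) = 1 := by
      rw [← map_sub, ← map_mul, one_div_mul_cancel hc1, map_one]
    refine ⟨v 0 * algebraMap ℂ K (1 / (p.2 ^ 3 - q.2 ^ 3)), ![p.2 ^ 3 - q.2 ^ 3, q.1 ^ 3 - p.1 ^ 3,
      p.1 ^ 3 * q.2 ^ 3 - p.2 ^ 3 * q.1 ^ 3], ?_⟩
    set j := algebraMap ℂ K (1 / (p.2 ^ 3 - q.2 ^ 3))
    set a := algebraMap ℂ K (p.1 ^ 3)
    set b := algebraMap ℂ K (p.2 ^ 3)
    set c := algebraMap ℂ K (q.1 ^ 3)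
    set d := algebraMap ℂ K (q.2 ^ 3)
    funext i
    fin_cases i
    · show v 0 = v 0 * j * algebraMap ℂ K (p.2 ^ 3 - q.2 ^ 3)
      rw [map_sub]
      linear_combination (-(v 0)) * hi
    · show v 1 = v 0 * j * algebraMap ℂ K (q.1 ^ 3 - p.1 ^ 3)
      rw [map_sub]
      linear_combination (-(v 1)) * hi + j * (h1 - h2)
    · show v 2 = v 0 * j * algebraMap ℂ K (p.1 ^ 3 * q.2 ^ 3 - p.2 ^ 3 * q.1 ^ 3)
      rw [map_sub, map_mul, map_mul]
      linear_combination (-(v 2)) * hi + j * b * h2 - j * d * h1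

end

/-- There are infinitely many good points `(p0, p1)`: all `p0⁴ + p1⁴ = -1` with `p0, p1 ≠ 0`,
`3 p0⁴ p1⁴ ≠ 1` and `p0⁴ p1⁴ ≠ 1` (the discriminant is `8 p0² p1² (p0⁴ p1⁴ - 1)`). -/
theorem good_infinite : good.Infinite := by
  have key : ∀ n : ℕ, ∃ y : ℂ, ((n : ℂ) + 1, y) ∈ good := by
    intro n
    set a : ℂ := (n : ℂ) + 1 with ha
    obtain ⟨b, hb⟩ := IsAlgClosed.exists_pow_nat_eq (-1 - a ^ 4) (n := 4) (by norm_num)
    have hcast : a ^ 4 * b ^ 4 = -(((n + 1 : ℕ) ^ 4 * (1 + (n + 1) ^ 4) : ℕ) : ℂ) := by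
      rw [hb, ha]
      push_cast
      ring
    have hb4 : b ^ 4 = -((1 + (n + 1) ^ 4 : ℕ) : ℂ) := by
      rw [hb, ha]
      push_cast
      ring
    have ha0 : a ≠ 0 := by
      rw [ha]
      exact_mod_cast Nat.succ_ne_zero n
    have hb0 : b ≠ 0 := by
      intro h
      rw [h] at hb4
      have h1 : ((1 + (n + 1) ^ 4 : ℕ) : ℂ) = 0 := by
        linear_combination hb4
      exact_mod_cast absurd h1 (by exact_mod_cast (by positivity : (1 + (n + 1) ^ 4) ≠ 0))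
    set C : ℂ := -(1 - 3 * a ^ 4 * b ^ 4) with hC
    have hC0 : C ≠ 0 := by
      intro h
      have h1 : ((1 + 3 * ((n + 1) ^ 4 * (1 + (n + 1) ^ 4)) : ℕ) : ℂ) = 0 := by
        push_cast at hcast ⊢
        linear_combination 3 * hcast - h
      exact absurd h1 (by exact_mod_cast (by positivity :
        (1 + 3 * ((n + 1) ^ 4 * (1 + (n + 1) ^ 4))) ≠ 0))
    have hpi : a ^ 4 * b ^ 4 - 1 ≠ 0 := by
      intro h
      have h1 : ((1 + ((n + 1) ^ 4 * (1 + (n + 1) ^ 4)) : ℕ) : ℂ) = 0 := by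
        push_cast at hcast ⊢
        linear_combination hcast - h
      exact absurd h1 (by exact_mod_cast (by positivity :
        (1 + ((n + 1) ^ 4 * (1 + (n + 1) ^ 4))) ≠ 0))
    -- the roots
    set S : ℂ := -(4 * a * b * (a ^ 4 - b ^ 4)) with hS
    set P : ℂ := -(6 * a ^ 2 * b ^ 2) with hP
    obtain ⟨δ, hδ⟩ := IsAlgClosed.exists_pow_nat_eq (S ^ 2 - 4 * C * P) (n := 2) (by norm_num)
    have h0 : a ^ 4 + b ^ 4 + 1 = 0 := by
      rw [hb]
      ring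
    have hdisc : S ^ 2 - 4 * C * P = 8 * a ^ 2 * b ^ 2 * (a ^ 4 * b ^ 4 - 1) := by
      rw [hS, hC, hP]
      linear_combination (16 * a ^ 2 * b ^ 2 * (a ^ 4 + b ^ 4 - 1)) * h0
    have hδ0 : δ ≠ 0 := by
      intro h
      rw [h, hdisc] at hδ
      have h2 : (8 : ℂ) * a ^ 2 * b ^ 2 * (a ^ 4 * b ^ 4 - 1) ≠ 0 :=
        mul_ne_zero (mul_ne_zero (mul_ne_zero (by norm_num) (pow_ne_zero 2 ha0))
          (pow_ne_zero 2 hb0)) hpi
      exact h2 (by rw [← hδ]; ring)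
    refine ⟨b, ⟨a, b, (S + δ) / (2 * C), (S - δ) / (2 * C), C, hC0, ?_, ha0, h0, hC, ?_, ?_⟩,
      rfl, rfl⟩
    · intro h
      rw [div_left_inj' (mul_ne_zero two_ne_zero hC0)] at h
      exact hδ0 (by linear_combination (1 / 2 : ℂ) * h)
    · rw [← hS]
      field_simp
      ring
    · rw [← hP]
      field_simp
      linear_combination -hδ
  choose y hy using key
  have hinj : Function.Injective fun n : ℕ => (((n : ℂ) + 1, y n) : ℂ × ℂ) := by
    intro m n h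
    have h1 := (Prod.ext_iff.1 h).1
    simpa using h1
  exact Set.infinite_of_injective_forall_mem hinj hy

/-- Finitely many tangent lines pass through a given point. (`-X0⁴ (1 + p1⁴)³ = (c - p1³ Y0)⁴`.) -/
theorem lines_finite {X0 : ℂ} (hX : X0 ≠ 0) (Y0 c : ℂ) :
    {p : ℂ × ℂ | p ∈ good ∧ p.1 ^ 3 * X0 + p.2 ^ 3 * Y0 = c}.Finite := by
  classical
  set P : Polynomial ℂ := Polynomial.C (X0 ^ 4) * (1 + Polynomial.X ^ 4) ^ 3 +
    (Polynomial.C c - Polynomial.X ^ 3 * Polynomial.C Y0) ^ 4 with hP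
  have hP0 : P ≠ 0 := by
    have h : P.coeff 8 ≠ 0 := by
      have h1 : P = Polynomial.C (X0 ^ 4) + Polynomial.C (3 * X0 ^ 4) * Polynomial.X ^ 4 +
          Polynomial.C (3 * X0 ^ 4) * Polynomial.X ^ 8 + Polynomial.C (X0 ^ 4) * Polynomial.X ^ 12 +
          Polynomial.C (c ^ 4) - Polynomial.C (4 * c ^ 3 * Y0) * Polynomial.X ^ 3 +
          Polynomial.C (6 * c ^ 2 * Y0 ^ 2) * Polynomial.X ^ 6 -
          Polynomial.C (4 * c * Y0 ^ 3) * Polynomial.X ^ 9 +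
          Polynomial.C (Y0 ^ 4) * Polynomial.X ^ 12 := by
        rw [hP]
        simp only [Polynomial.C_mul, Polynomial.C_pow, map_ofNat]
        ring
      rw [h1]
      simp only [Polynomial.coeff_add, Polynomial.coeff_sub, Polynomial.coeff_C_mul,
        Polynomial.coeff_X_pow, Polynomial.coeff_C]
      norm_num
      exact hX
    intro h2
    rw [h2] at h
    exact h (Polynomial.coeff_zero 8)
  have hfin : (⋃ y ∈ (P.roots.toFinset : Set ℂ), (fun x : ℂ => (x, y)) ''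
      ((Polynomial.X ^ 4 - Polynomial.C (-1 - y ^ 4) : Polynomial ℂ).roots.toFinset : Set ℂ)).Finite := by
    refine Set.Finite.biUnion (Finset.finite_toSet _) ?_
    intro y _
    exact (Finset.finite_toSet _).image _
  refine hfin.subset ?_
  rintro ⟨a, b⟩ ⟨⟨τ, e0, e1⟩, h⟩
  simp only at e0 e1 h
  have h0 := τ.hp
  rw [e0, e1] at h0
  have hb : P.IsRoot b := by
    rw [Polynomial.IsRoot, hP]
    simp only [Polynomial.eval_add, Polynomial.eval_mul, Polynomial.eval_pow, Polynomial.eval_sub,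
      Polynomial.eval_C, Polynomial.eval_X, Polynomial.eval_one]
    have h2 : c - b ^ 3 * Y0 = a ^ 3 * X0 := by linear_combination -h
    have h3 : 1 + b ^ 4 = - a ^ 4 := by linear_combination h0
    rw [h2, h3]
    ring
  have ha : (Polynomial.X ^ 4 - Polynomial.C (-1 - b ^ 4) : Polynomial ℂ).IsRoot a := by
    simp only [Polynomial.IsRoot, Polynomial.eval_sub, Polynomial.eval_pow, Polynomial.eval_X,
      Polynomial.eval_C]
    linear_combination h0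
  have hne : (Polynomial.X ^ 4 - Polynomial.C (-1 - b ^ 4) : Polynomial ℂ) ≠ 0 :=
    Polynomial.X_pow_sub_C_ne_zero (by norm_num) _
  refine Set.mem_biUnion (x := b) ?_ ?_
  · exact Finset.mem_coe.2 (Multiset.mem_toFinset.2 ((Polynomial.mem_roots hP0).2 hb))
  · exact ⟨a, Finset.mem_coe.2 (Multiset.mem_toFinset.2 ((Polynomial.mem_roots hne).2 ha)), rfl⟩

end Pool.Agent.Lib.MP_8ae0c1_agG
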