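import Pool.Agent.Lib.MP_8ae0c1_agG.Value
import Pool.Agent.Lib.MP_8ae0c1_agG.Tan

/-!
# MP_8ae0c1_ag, T7: finiteness statements
-/

set_option autoImplicit false

open Pool.Agent.Lib.MP_8ae0c1_ag hiding xR yR
open EllFF

namespace Pool.Agent.Lib.MP_8ae0c1_agG

variable {l : ℂ} [Leg l] {d : ℕ}

theorem exists_rep (s : SecD l d) : ∃ (v : Fin 3 → R l) (u : R l), IsRep l s.1 v u := by
  obtain ⟨⟨v, u, h, -⟩, -⟩ := s.2
  exact ⟨v, u, h⟩

theorem rep_ne {s : Sec l} {v : Fin 3 → R l} {u : R l} (h : IsRep l s v u) :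
    (fun i => algebraMap (R l) (K l) (v i)) ≠ 0 := by
  obtain ⟨p, -, h1, -⟩ := h
  rw [← h1]
  exact p.2.1

theorem mord_const {c : Fin 3 → ℂ} (hc : c ≠ 0) (P : Place l) :
    mord P (fun i => algebraMap ℂ (K l) (c i)) = 0 := by
  have hne : (fun i => algebraMap ℂ (K l) (c i)) ≠ 0 := by
    obtain ⟨i, hi⟩ := Function.ne_iff.1 hc
    refine Function.ne_iff.2 ⟨i, ?_⟩
    exact (map_ne_zero_iff _ (FaithfulSMul.algebraMap_injective ℂ (K l))).2 hi
  apply le_antisymm
  · obtain ⟨i, h1, h2⟩ := mord_attained P hne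
    rw [← h2, ord_const]
  · rw [le_mord_iff P hne]
    exact fun i => OrdGe.const P (c i)

/-- A section of positive height is not constant. -/
theorem not_const (hd : 1 ≤ d) {s : SecD l d} {v : Fin 3 → R l} {u : R l} (h : IsRep l s.1 v u)
    (f : K l) (c : Fin 3 → ℂ) (hv : ∀ i, algebraMap (R l) (K l) (v i) = f * algebraMap ℂ (K l) (c i)) :
    False := by
  have hne := rep_ne h
  have hf : f ≠ 0 := by
    rintro rfl
    apply hne
    ext i
    rw [hv i, zero_mul]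
    rfl
  have hc : c ≠ 0 := by
    rintro rfl
    apply hne
    ext i
    rw [hv i, Pi.zero_apply, map_zero, mul_zero]
    rfl
  have hcne : (fun i => algebraMap ℂ (K l) (c i)) ≠ 0 := by
    obtain ⟨i, hi⟩ := Function.ne_iff.1 hc
    refine Function.ne_iff.2 ⟨i, ?_⟩
    exact (map_ne_zero_iff _ (FaithfulSMul.algebraMap_injective ℂ (K l))).2 hi
  have h1 := (height_iff_rep h d).1 s.2
  have h2 : (fun P : Place l => mord P (fun i => algebraMap (R l) (K l) (v i))) =
      fun P => ord P f := by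
    ext P
    have h3 : (fun i => algebraMap (R l) (K l) (v i)) = f • fun i => algebraMap ℂ (K l) (c i) := by
      ext i
      rw [hv i]
      rfl
    rw [h3, mord_smul P hcne hf, mord_const hc, add_zero]
  rw [h2, ord_sum hf] at h1
  omega

/-- The section meets the point `e2` finitely often. -/
theorem lin_finite (τ : Tan) (hd : 1 ≤ d) {s : SecD l d} (hs : s ∈ plane l d (form (τ.p0, τ.p1))) :
    {b : Pt l | ∃ hb : b.1.1 ≠ 0, s ∈ lin d ⟨b, hb⟩ τ.l2}.Finite := by
  obtain ⟨v, u, h⟩ := exists_rep s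
  have h1 := (mem_plane_iff h _).1 hs
  have hg : dot τ.l2 v ≠ 0 := by
    intro h2
    have h3 := eq_pt τ h1
    have h4 : dot τ.l2 (τ.pt (v 2) (algebraMap ℂ (R l) (τ.p1 / τ.p0 ^ 3) * v 2 -
        algebraMap ℂ (R l) (1 / τ.p0 ^ 3) * v 1)) = 0 := by rw [← h3]; exact h2
    rw [dot_l2, sub_eq_zero] at h4
    rw [h4] at h3
    refine not_const hd h (algebraMap (R l) (K l) (v 2))
      ![τ.p0 + τ.p1 ^ 3 * τ.e2, τ.p1 - τ.p0 ^ 3 * τ.e2, 1] ?_
    intro i
    have h5 := congrFun h3 i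
    have hA : ∀ c : ℂ, algebraMap (R l) (K l) (algebraMap ℂ (R l) c) = algebraMap ℂ (K l) c :=
      fun c => (IsScalarTower.algebraMap_apply ℂ (R l) (K l) c).symm
    fin_cases i
    · have h6 : v 0 = algebraMap ℂ (R l) τ.p0 * v 2 +
          algebraMap ℂ (R l) (τ.p1 ^ 3) * (algebraMap ℂ (R l) τ.e2 * v 2) := h5
      show algebraMap (R l) (K l) (v 0) = algebraMap (R l) (K l) (v 2) *
        algebraMap ℂ (K l) (τ.p0 + τ.p1 ^ 3 * τ.e2)
      rw [h6]
      simp only [map_add, map_mul, hA]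
      ring
    · have h6 : v 1 = algebraMap ℂ (R l) τ.p1 * v 2 -
          algebraMap ℂ (R l) (τ.p0 ^ 3) * (algebraMap ℂ (R l) τ.e2 * v 2) := h5
      show algebraMap (R l) (K l) (v 1) = algebraMap (R l) (K l) (v 2) *
        algebraMap ℂ (K l) (τ.p1 - τ.p0 ^ 3 * τ.e2)
      rw [h6]
      simp only [map_sub, map_mul, hA]
      ring
    · show algebraMap (R l) (K l) (v 2) = algebraMap (R l) (K l) (v 2) *
        algebraMap ℂ (K l) (1 : ℂ)
      rw [map_one, mul_one]
  refine (finite_zeros hg).subset ?_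
  rintro b ⟨hb, h2⟩
  show ev l b (dot τ.l2 v) = 0
  rw [ev_dot]
  by_cases hP : ∃ i, ev l b (v i) ≠ 0
  · exact (mem_lin_iff (P := ⟨b, hb⟩) h hP _).1 h2
  · push Not at hP
    simp only [dot, hP, mul_zero, add_zero]

/-- Only one condition `T - e1 Z = κ (T - e2 Z)` holds at a point. -/
theorem lin_unique (τ : Tan) {s : SecD l d} (hs : s ∈ plane l d (form (τ.p0, τ.p1))) (β : Pt0 l)
    {κ κ' : ℂ} (h1 : s ∈ lin d β (τ.l1 - κ • τ.l2)) (h2 : s ∈ lin d β (τ.l1 - κ' • τ.l2)) :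
    κ = κ' := by
  obtain ⟨c, hc⟩ := exists_coord s β
  have hf := hs β c hc
  have e1 := h1 c hc
  have e2 := h2 c hc
  by_contra hne
  simp only [Pi.sub_apply, Pi.smul_apply, smul_eq_mul] at e1 e2
  have k2 : τ.l2 0 * c 0 + τ.l2 1 * c 1 + τ.l2 2 * c 2 = 0 := by
    have h3 : (κ - κ') * (τ.l2 0 * c 0 + τ.l2 1 * c 1 + τ.l2 2 * c 2) = 0 := by
      linear_combination e2 - e1
    exact (mul_eq_zero.1 h3).resolve_left (sub_ne_zero.2 hne)
  have k1 : τ.l1 0 * c 0 + τ.l1 1 * c 1 + τ.l1 2 * c 2 = 0 := by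
    linear_combination e1 + κ * k2
  have hz : (![c 0, c 1, c 2] : Fin 3 → ℂ) = 0 := by
    refine eq_zero_of_l1_l2 τ ?_ ?_ ?_
    · simpa [dot] using hf
    · simpa [dot] using k1
    · simpa [dot] using k2
  obtain ⟨v, u, -, ⟨i, hi⟩, c0, c1, c2, -⟩ := hc
  have z0 : c 0 = 0 := congrFun hz 0
  have z1 : c 1 = 0 := congrFun hz 1
  have z2 : c 2 = 0 := congrFun hz 2
  apply hi
  fin_cases i
  · exact c0.symm.trans z0
  · exact c1.symm.trans z1
  · exact c2.symm.trans z2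

/-- A section lies in at most one of the planes. -/
theorem plane_finite (hd : 1 ≤ d) (s : SecD l d) : {p ∈ good | s ∈ plane l d (form p)}.Finite := by
  refine Set.Subsingleton.finite ?_
  rintro p ⟨hp, h1⟩ q ⟨hq, h2⟩
  by_contra hne
  obtain ⟨v, u, h⟩ := exists_rep s
  have e1 := (mem_plane_iff h _).1 h1
  have e2 := (mem_plane_iff h _).1 h2
  have hK : ∀ a : Fin 3 → ℂ, dot a v = 0 → dot a (fun i => algebraMap (R l) (K l) (v i)) = 0 := by
    intro a ha
    have h3 := congrArg (algebraMap (R l) (K l)) ha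
    simp only [dot, map_add, map_mul, map_zero,
      ← IsScalarTower.algebraMap_apply ℂ (R l) (K l)] at h3
    exact h3
  obtain ⟨f, c, hv⟩ := form_form hp hq hne (hK _ e1) (hK _ e2)
  exact not_const hd h f c fun i => congrFun hv i

end Pool.Agent.Lib.MP_8ae0c1_agG
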