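import Pool.Agent.Lib.MP_8ae0c1_agG.Tan

/-!
# MP_8ae0c1_ag, T7, leaf F: the sections in the rational curve over a tangent line
-/

set_option autoImplicit false
set_option linter.unusedSectionVars false

open Pool.Agent.Lib.MP_8ae0c1_ag hiding xR yR
open EllFF

namespace Pool.Agent.Lib.MP_8ae0c1_agG

variable {l : ℂ} [Leg l]

/-! ### Evaluation -/

omit [Leg l] in
theorem Family_ev_poly (P : Pt l) (p : Polynomial ℂ) :
    ev l P (Polynomial.aeval (xR l) p) = p.eval P.1.1 := by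
  rw [← algebraMap_poly]
  exact AdjoinRoot.lift_of _

omit [Leg l] in
theorem Family_ev_c (P : Pt l) (c : ℂ) : ev l P (algebraMap ℂ (R l) c) = c := by
  have h := Family_ev_poly P (Polynomial.C c)
  rw [Polynomial.aeval_C, Polynomial.eval_C] at h
  exact h

omit [Leg l] in
theorem Family_ev_x (P : Pt l) : ev l P (xR l) = P.1.1 := by
  have h := Family_ev_poly P Polynomial.X
  rw [Polynomial.aeval_X, Polynomial.eval_X] at h
  exact h

omit [Leg l] in
theorem Family_ev_y (P : Pt l) : ev l P (yR l) = P.1.2 := AdjoinRoot.lift_root _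

omit [Leg l] in
theorem Family_ev_famP (S : Finset (Pt l)) (β : Pt l) :
    ev l β (famP S) = ∏ b ∈ S, (β.1.1 - b.1.1) := by
  unfold famP
  rw [map_prod]
  refine Finset.prod_congr rfl fun b _ => ?_
  rw [map_sub, Family_ev_x, Family_ev_c]

omit [Leg l] in
open Classical in
theorem Family_ev_famA (S : Finset (Pt l)) (r : Pt l → ℂ) (β : Pt l) :
    ev l β (famA S r) = ∑ b ∈ S, (r b * b.1.1) * ∏ c ∈ S.erase b, (β.1.1 - c.1.1) := by
  unfold famA
  rw [map_sum]
  refine Finset.sum_congr rfl fun b _ => ?_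
  rw [map_mul, Family_ev_c, map_prod]
  congr 1
  refine Finset.prod_congr rfl fun c _ => ?_
  rw [map_sub, Family_ev_x, Family_ev_c]

omit [Leg l] in
open Classical in
theorem Family_ev_famB (S : Finset (Pt l)) (r : Pt l → ℂ) (β : Pt l) :
    ev l β (famB S r) = ∑ b ∈ S, (r b * b.1.2) * ∏ c ∈ S.erase b, (β.1.1 - c.1.1) := by
  unfold famB
  rw [map_sum]
  refine Finset.sum_congr rfl fun b _ => ?_
  rw [map_mul, Family_ev_c, map_prod]
  congr 1
  refine Finset.prod_congr rfl fun c _ => ?_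
  rw [map_sub, Family_ev_x, Family_ev_c]

omit [Leg l] in
theorem Family_ev_famN (S : Finset (Pt l)) (r : Pt l → ℂ) (β : Pt l) :
    ev l β (famN S r) = β.1.2 * ev l β (famA S r) + β.1.1 * ev l β (famB S r) := by
  unfold famN
  rw [map_add, map_mul, map_mul, Family_ev_x, Family_ev_y]

omit [Leg l] in
/-- `N = x θ ∏` -/
theorem Family_ev_famN_theta {S : Finset (Pt l)} (r : Pt l → ℂ) {β : Pt l} (h0 : β.1.1 ≠ 0)
    (hβ : ∀ b ∈ S, β.1.1 ≠ b.1.1) :
    ev l β (famN S r) = β.1.1 * theta' S r β * ev l β (famP S) := by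
  classical
  rw [Family_ev_famN, Family_ev_famA, Family_ev_famB, Family_ev_famP, theta', Finset.mul_sum,
    Finset.mul_sum, ← Finset.sum_add_distrib, Finset.mul_sum, Finset.sum_mul]
  refine Finset.sum_congr rfl fun b hb => ?_
  have h1 : β.1.1 - b.1.1 ≠ 0 := sub_ne_zero.2 (hβ b hb)
  rw [← Finset.mul_prod_erase S (fun b => β.1.1 - b.1.1) hb]
  generalize ∏ c ∈ S.erase b, (β.1.1 - c.1.1) = π
  field_simp

omit [Leg l] in
/-- `N = 2 r_b x_b y_b ∏` at the points of `S`. -/
theorem Family_ev_famN_mem {S : Finset (Pt l)} (r : Pt l → ℂ) {b : Pt l} (hb : b ∈ S) :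
    ∃ π : ℂ, ev l b (famN S r) = 2 * r b * b.1.1 * b.1.2 * π ∧ (Adm S → π ≠ 0) := by
  classical
  refine ⟨∏ c ∈ S.erase b, (b.1.1 - c.1.1), ?_, fun hS => ?_⟩
  · have hz : ∀ (f : Pt l → ℂ), ∑ a ∈ S, f a * ∏ c ∈ S.erase a, (b.1.1 - c.1.1) =
        f b * ∏ c ∈ S.erase b, (b.1.1 - c.1.1) := by
      intro f
      refine Finset.sum_eq_single b (fun a _ hab => ?_) (fun h => absurd hb h)
      have : ∏ c ∈ S.erase a, (b.1.1 - c.1.1) = 0 :=
        Finset.prod_eq_zero (Finset.mem_erase.2 ⟨hab.symm, hb⟩) (sub_self _)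
      rw [this, mul_zero]
    rw [Family_ev_famN, Family_ev_famA, Family_ev_famB, hz, hz]
    ring
  · refine Finset.prod_ne_zero_iff.2 fun c hc => sub_ne_zero.2 fun h => ?_
    exact (Finset.mem_erase.1 hc).1 (hS.2 b hb c (Finset.mem_erase.1 hc).2 h).symm

omit [Leg l] in
theorem Family_x_ne {b : Pt l} (hb : b.1.2 ≠ 0) : b.1.1 ≠ 0 := by
  intro h
  have h1 := b.2
  rw [h] at h1
  exact hb (pow_eq_zero_iff two_ne_zero |>.1 (by rw [h1]; ring))

omit [Leg l] in
theorem Family_ev_famN_ne {S : Finset (Pt l)} (hS : Adm S) {r : Pt l → ℂ} {b : Pt l} (hb : b ∈ S)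
    (hr : r b ≠ 0) : ev l b (famN S r) ≠ 0 := by
  obtain ⟨π, h1, h2⟩ := Family_ev_famN_mem r hb
  rw [h1]
  have hy := hS.1 b hb
  exact mul_ne_zero (mul_ne_zero (mul_ne_zero (mul_ne_zero two_ne_zero hr) (Family_x_ne hy)) hy)
    (h2 hS)

/-! ### The section -/

omit [Leg l] in
theorem Family_famP_ne (S : Finset (Pt l)) : famP S ≠ 0 := by
  unfold famP
  refine Finset.prod_ne_zero_iff.2 fun b _ h => ?_
  rw [sub_eq_zero] at h
  exact xR_transc (l := l) (by rw [h]; exact isAlgebraic_algebraMap _)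

theorem famQ_eq (S : Finset (Pt l)) (r : Pt l → ℂ) : xR l * famQ S r = famN S r ^ 2 := by
  unfold famQ famN
  linear_combination (-(famA S r ^ 2)) * (yR_sq (l := l))

theorem famV_eq (τ : Tan) (S : Finset (Pt l)) (r : Pt l → ℂ) :
    famV τ S r = τ.pt (famZ τ S r) (famT τ S r) := rfl

omit [Leg l] in
theorem Family_c1 (τ : Tan) : algebraMap ℂ (R l) (1 / (τ.e2 - τ.e1)) *
    (algebraMap ℂ (R l) τ.e2 - algebraMap ℂ (R l) τ.e1) = 1 := by
  rw [← map_sub, ← map_mul, one_div, inv_mul_cancel₀ (sub_ne_zero.2 τ.he.symm), map_one]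

omit [Leg l] in
theorem Family_c2 (τ : Tan) (e : ℂ) : algebraMap ℂ (R l) (e / τ.C) =
    algebraMap ℂ (R l) e * algebraMap ℂ (R l) (1 / τ.C) := by
  rw [← map_mul, mul_one_div]

/-- `T - e1 Z = Q` -/
theorem fam_l1 (τ : Tan) (S : Finset (Pt l)) (r : Pt l → ℂ) : dot τ.l1 (famV τ S r) = famQ S r := by
  rw [famV_eq, dot_l1]
  unfold famT famZ
  rw [Family_c2 τ τ.e1]
  linear_combination famQ S r * Family_c1 (l := l) τ

/-- `T - e2 Z = ∏² / C` -/
theorem fam_l2 (τ : Tan) (S : Finset (Pt l)) (r : Pt l → ℂ) :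
    dot τ.l2 (famV τ S r) = algebraMap ℂ (R l) (1 / τ.C) * famP S ^ 2 := by
  rw [famV_eq, dot_l2]
  unfold famT famZ
  rw [Family_c2 τ τ.e1]
  linear_combination algebraMap ℂ (R l) (1 / τ.C) * famP S ^ 2 * Family_c1 (l := l) τ

theorem fam_form (τ : Tan) (S : Finset (Pt l)) (r : Pt l → ℂ) :
    dot (form (τ.p0, τ.p1)) (famV τ S r) = 0 := by
  rw [famV_eq, dot_form]

theorem famV_ne (τ : Tan) (S : Finset (Pt l)) (r : Pt l → ℂ) : famV τ S r ≠ 0 := by
  intro h
  have h1 := fam_l2 τ S r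
  rw [h] at h1
  have h2 : dot τ.l2 (0 : Fin 3 → R l) = 0 := by
    simp [dot]
  rw [h2] at h1
  have h3 : algebraMap ℂ (R l) (1 / τ.C) ≠ 0 := by
    rw [Ne, FaithfulSMul.algebraMap_eq_zero_iff]
    exact one_div_ne_zero τ.hC
  exact mul_ne_zero h3 (pow_ne_zero 2 (Family_famP_ne S)) h1.symm

theorem fam_rel (τ : Tan) (S : Finset (Pt l)) (r : Pt l → ℂ) :
    famU τ S r ^ 2 = xR l * quart (famV τ S r) := by
  have h1 := fam_l1 τ S r
  have h2 := fam_l2 τ S r
  rw [famV_eq, dot_l1] at h1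
  rw [famV_eq, dot_l2] at h2
  have h3 : algebraMap ℂ (R l) τ.C * algebraMap ℂ (R l) (1 / τ.C) = 1 := by
    rw [← map_mul, mul_one_div, div_self τ.hC, map_one]
  rw [famV_eq, quart_pt, h1, h2]
  unfold famU
  linear_combination (-(famT τ S r ^ 2 * famP S ^ 2)) * famQ_eq S r -
    xR l * famT τ S r ^ 2 * famQ S r * famP S ^ 2 * h3

/-- The section with coordinates `famV`, `famU`. -/
theorem exists_sec (τ : Tan) (S : Finset (Pt l)) (r : Pt l → ℂ) :
    ∃ s : Sec l, IsRep l s (famV τ S r) (famU τ S r) := by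
  have hx : algebraMap (R l) (K l) (xR l) ≠ 0 := xK_ne_zero (l := l)
  have hinj : Function.Injective (algebraMap (R l) (K l)) := IsFractionRing.injective _ _
  have h0 : (fun i => algebraMap (R l) (K l) (famV τ S r i)) ≠ 0 := by
    intro h
    apply famV_ne τ S r
    funext i
    have h1 := congrFun h i
    exact hinj (by rw [h1]; simp)
  have hq : algebraMap (R l) (K l) (xR l) * (algebraMap (R l) (K l) (famU τ S r) /
      algebraMap (R l) (K l) (xR l)) ^ 2 =
      quart (fun i => algebraMap (R l) (K l) (famV τ S r i)) := by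
    have h1 := congrArg (algebraMap (R l) (K l)) (fam_rel τ S r)
    unfold quart at h1 ⊢
    simp only [map_mul, map_pow, map_add] at h1
    rw [div_pow, h1]
    field_simp
  exact ⟨_, ⟨(fun i => algebraMap (R l) (K l) (famV τ S r i),
    algebraMap (R l) (K l) (famU τ S r) / algebraMap (R l) (K l) (xR l)), h0, hq⟩, rfl, rfl,
    mul_div_cancel₀ _ hx⟩

/-! ### The height -/

/-- A constant times a function. -/
theorem Family_m_cmul {P : Place l} {n : ℤ} {f : K l} (c : ℂ) (h : OrdGe P n f) :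
    OrdGe P n (algebraMap ℂ (K l) c * f) := by
  have h1 := (OrdGe.const P c).mul h
  rwa [zero_add] at h1

omit [Leg l] in
theorem Family_m_map (c : ℂ) : algebraMap (R l) (K l) (algebraMap ℂ (R l) c) = algebraMap ℂ (K l) c :=
  (IsScalarTower.algebraMap_apply ℂ (R l) (K l) c).symm

/-- `dot a v` has order at least the order of `v`. -/
theorem Family_m_dot {P : Place l} {n : ℤ} (a : Fin 3 → ℂ) {v : Fin 3 → R l}
    (h : ∀ i, OrdGe P n (algebraMap (R l) (K l) (v i))) :
    OrdGe P n (algebraMap (R l) (K l) (dot a v)) := by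
  unfold dot
  rw [map_add, map_add, map_mul, map_mul, map_mul, Family_m_map, Family_m_map, Family_m_map]
  exact ((Family_m_cmul _ (h 0)).add (Family_m_cmul _ (h 1))).add (Family_m_cmul _ (h 2))

/-- Linear combinations of `Q` and `∏²`. -/
theorem Family_m_comb {P : Place l} {n : ℤ} {A B : R l} (a b : ℂ)
    (h1 : OrdGe P n (algebraMap (R l) (K l) A)) (h2 : OrdGe P n (algebraMap (R l) (K l) B)) :
    OrdGe P n (algebraMap (R l) (K l) (algebraMap ℂ (R l) a * A + algebraMap ℂ (R l) b * B)) := by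
  rw [map_add, map_mul, map_mul, Family_m_map, Family_m_map]
  exact (Family_m_cmul _ h1).add (Family_m_cmul _ h2)

theorem Family_m_ordGe_iff (τ : Tan) (S : Finset (Pt l)) (r : Pt l → ℂ) (P : Place l) (n : ℤ) :
    (∀ i, OrdGe P n (algebraMap (R l) (K l) (famV τ S r i))) ↔
      OrdGe P n (algebraMap (R l) (K l) (famQ S r)) ∧
        OrdGe P n (algebraMap (R l) (K l) (famP S ^ 2)) := by
  constructor
  · intro h
    refine ⟨?_, ?_⟩
    · rw [← fam_l1 τ S r]
      exact Family_m_dot _ h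
    · have h1 : famP S ^ 2 = algebraMap ℂ (R l) τ.C * dot τ.l2 (famV τ S r) := by
        rw [fam_l2, ← mul_assoc, ← map_mul, mul_one_div, div_self τ.hC, map_one, one_mul]
      rw [h1, map_mul, Family_m_map]
      exact Family_m_cmul _ (Family_m_dot _ h)
  · rintro ⟨h1, h2⟩ i
    have hZ : famZ τ S r = algebraMap ℂ (R l) (1 / (τ.e2 - τ.e1)) * famQ S r +
        algebraMap ℂ (R l) (-(1 / (τ.e2 - τ.e1) * (1 / τ.C))) * famP S ^ 2 := by
      unfold famZ
      rw [map_neg, map_mul]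
      ring
    have hT : famT τ S r = algebraMap ℂ (R l) (1 / (τ.e2 - τ.e1) * τ.e2) * famQ S r +
        algebraMap ℂ (R l) (-(1 / (τ.e2 - τ.e1) * (τ.e1 / τ.C))) * famP S ^ 2 := by
      unfold famT
      rw [map_neg, map_mul, map_mul]
      ring
    have hZ' : OrdGe P n (algebraMap (R l) (K l) (famZ τ S r)) := by
      rw [hZ]
      exact Family_m_comb _ _ h1 h2
    have hT' : OrdGe P n (algebraMap (R l) (K l) (famT τ S r)) := by
      rw [hT]
      exact Family_m_comb _ _ h1 h2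
    fin_cases i
    · exact Family_m_comb _ _ hZ' hT'
    · have h3 := Family_m_comb (l := l) τ.p1 (-(τ.p0 ^ 3)) hZ' hT'
      have h4 : famV τ S r 1 = algebraMap ℂ (R l) τ.p1 * famZ τ S r +
          algebraMap ℂ (R l) (-(τ.p0 ^ 3)) * famT τ S r := by
        rw [map_neg]
        show algebraMap ℂ (R l) τ.p1 * famZ τ S r - algebraMap ℂ (R l) (τ.p0 ^ 3) * famT τ S r = _
        ring
      show OrdGe P n (algebraMap (R l) (K l) (famV τ S r 1))
      rw [h4]
      exact h3
    · exact hZ'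

theorem Family_m_vne (τ : Tan) (S : Finset (Pt l)) (r : Pt l → ℂ) :
    (fun i => algebraMap (R l) (K l) (famV τ S r i)) ≠ 0 := by
  intro h
  apply famV_ne τ S r
  funext i
  have h1 := congrFun h i
  exact (IsFractionRing.injective (R l) (K l)) (by rw [h1]; simp)

theorem Family_m_P2ne (S : Finset (Pt l)) : algebraMap (R l) (K l) (famP S ^ 2) ≠ 0 := by
  intro h
  exact pow_ne_zero 2 (Family_famP_ne S)
    ((IsFractionRing.injective (R l) (K l)) (by rw [h, map_zero]))

theorem Family_m_mord_eq (τ : Tan) (S : Finset (Pt l)) (r : Pt l → ℂ) (P : Place l) (m : ℤ)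
    (h1 : OrdGe P m (algebraMap (R l) (K l) (famQ S r)))
    (h2 : OrdGe P m (algebraMap (R l) (K l) (famP S ^ 2)))
    (h3 : (algebraMap (R l) (K l) (famQ S r) ≠ 0 ∧ ord P (algebraMap (R l) (K l) (famQ S r)) = m) ∨
      ord P (algebraMap (R l) (K l) (famP S ^ 2)) = m) :
    mord P (fun i => algebraMap (R l) (K l) (famV τ S r i)) = m := by
  have hv := Family_m_vne τ S r
  apply le_antisymm
  · have h4 := (Family_m_ordGe_iff τ S r P _).1 ((le_mord_iff P hv _).1 le_rfl)
    rcases h3 with ⟨h5, h6⟩ | h6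
    · rw [← h6]
      exact h4.1.le h5
    · rw [← h6]
      exact h4.2.le (Family_m_P2ne S)
  · rw [le_mord_iff P hv]
    exact (Family_m_ordGe_iff τ S r P m).2 ⟨h1, h2⟩

/-! ### Orders at infinity -/

theorem Family_m_fac_ne (c : ℂ) : xK l - algebraMap ℂ (K l) c ≠ 0 := by
  intro h
  rw [sub_eq_zero] at h
  exact xK_transc (l := l) (by rw [h]; exact isAlgebraic_algebraMap _)

open Classical in
theorem Family_m_ord_prod (P : Place l) (T : Finset (Pt l)) (f : Pt l → K l)
    (h : ∀ b, f b ≠ 0) : ord P (∏ b ∈ T, f b) = ∑ b ∈ T, ord P (f b) := by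
  induction T using Finset.induction_on with
  | empty => rw [Finset.prod_empty, Finset.sum_empty, ord_one]
  | insert a s ha ih =>
    rw [Finset.prod_insert ha, Finset.sum_insert ha,
      ord_mul P (h a) (Finset.prod_ne_zero_iff.2 fun b _ => h b), ih]

theorem Family_m_prod_map (T : Finset (Pt l)) :
    algebraMap (R l) (K l) (∏ b ∈ T, (xR l - algebraMap ℂ (R l) b.1.1)) =
      ∏ b ∈ T, (xK l - algebraMap ℂ (K l) b.1.1) := by
  rw [map_prod]
  refine Finset.prod_congr rfl fun b _ => ?_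
  rw [map_sub, Family_m_map]
  rfl

theorem Family_m_ord_inf_fac (c : ℂ) :
    ord (Place.inf : Place l) (xK l - algebraMap ℂ (K l) c) = -2 := by
  rw [sub_eq_add_neg, ← map_neg]
  have h := ord_add_eq (Place.inf : Place l) (xK_ne_zero (l := l))
    (g := algebraMap ℂ (K l) (-c)) (by
      rw [ord_x_inf]
      exact (OrdGe.const _ _).mono (by norm_num))
  rw [h.2, ord_x_inf]

theorem Family_m_ord_inf_prod (T : Finset (Pt l)) :
    ord (Place.inf : Place l) (algebraMap (R l) (K l)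
      (∏ b ∈ T, (xR l - algebraMap ℂ (R l) b.1.1))) = -2 * (T.card : ℤ) := by
  rw [Family_m_prod_map, Family_m_ord_prod _ _ _ fun b => Family_m_fac_ne _,
    Finset.sum_congr rfl fun b _ => Family_m_ord_inf_fac b.1.1, Finset.sum_const, nsmul_eq_mul]
  ring

open Classical in
theorem Family_m_inf_sum (S : Finset (Pt l)) (f : Pt l → ℂ) :
    OrdGe (Place.inf : Place l) (-2 * ((S.card : ℤ) - 1)) (algebraMap (R l) (K l)
      (∑ b ∈ S, algebraMap ℂ (R l) (f b) *
        ∏ c ∈ S.erase b, (xR l - algebraMap ℂ (R l) c.1.1))) := by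
  rw [map_sum]
  refine OrdGe.sum _ _ fun b hb => ?_
  rw [map_mul, Family_m_map]
  refine Family_m_cmul _ (Or.inr ?_)
  rw [Family_m_ord_inf_prod, Finset.card_erase_of_mem hb]
  have h1 : 1 ≤ S.card := Finset.card_pos.2 ⟨b, hb⟩
  omega

theorem Family_m_inf_N (S : Finset (Pt l)) (r : Pt l → ℂ) :
    OrdGe (Place.inf : Place l) (-2 * (S.card : ℤ) - 1)
      (algebraMap (R l) (K l) (famN S r)) := by
  unfold famN
  rw [map_add, map_mul, map_mul]
  have hy : OrdGe (Place.inf : Place l) (-3) (algebraMap (R l) (K l) (yR l)) := Or.inr ord_y_inf.ge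
  have hx : OrdGe (Place.inf : Place l) (-2) (algebraMap (R l) (K l) (xR l)) := Or.inr ord_x_inf.ge
  have hA : OrdGe (Place.inf : Place l) (-2 * ((S.card : ℤ) - 1))
      (algebraMap (R l) (K l) (famA S r)) := Family_m_inf_sum S _
  have hB : OrdGe (Place.inf : Place l) (-2 * ((S.card : ℤ) - 1))
      (algebraMap (R l) (K l) (famB S r)) := Family_m_inf_sum S _
  exact ((hy.mul hA).mono (by linarith)).add ((hx.mul hB).mono (by linarith))

theorem Family_m_Q_eq (S : Finset (Pt l)) (r : Pt l → ℂ) :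
    algebraMap (R l) (K l) (famQ S r) =
      algebraMap (R l) (K l) (famN S r) * algebraMap (R l) (K l) (famN S r) * (xK l)⁻¹ := by
  have h1 := congrArg (algebraMap (R l) (K l)) (famQ_eq S r)
  rw [map_mul, map_pow] at h1
  have h2 : xK l ≠ 0 := xK_ne_zero
  rw [← pow_two, ← h1]
  show _ = xK l * _ * (xK l)⁻¹
  field_simp

theorem Family_m_inf (τ : Tan) (S : Finset (Pt l)) (r : Pt l → ℂ) :
    mord (Place.inf : Place l) (fun i => algebraMap (R l) (K l) (famV τ S r i)) =
      -4 * (S.card : ℤ) := by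
  have h1 : ord (Place.inf : Place l) (algebraMap (R l) (K l) (famP S ^ 2)) =
      -4 * (S.card : ℤ) := by
    rw [map_pow, ord_pow]
    have h2 := Family_m_ord_inf_prod (l := l) S
    unfold famP
    rw [h2]
    push_cast
    ring
  refine Family_m_mord_eq τ S r _ _ ?_ (Or.inr h1.ge) (Or.inr h1)
  rw [Family_m_Q_eq]
  have h3 : OrdGe (Place.inf : Place l) 2 (xK l)⁻¹ := Or.inr (by rw [ord_inv, ord_x_inf]; norm_num)
  exact (((Family_m_inf_N S r).mul (Family_m_inf_N S r)).mul h3).mono (by linarith)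

/-! ### Orders at the affine points -/

/-- The point `(a, b)`. -/
def Family_m_mk (a b : ℂ) (h : b ^ 2 = a * (a - 1) * (a - l)) : Pt l := ⟨(a, b), h⟩

theorem Family_m_mk1 (a b : ℂ) (h : b ^ 2 = a * (a - 1) * (a - l)) :
    (Family_m_mk a b h).1.1 = a := rfl

theorem Family_m_mk2 (a b : ℂ) (h : b ^ 2 = a * (a - 1) * (a - l)) :
    (Family_m_mk a b h).1.2 = b := rfl

theorem Family_m_ev (a b : ℂ) (h : b ^ 2 = a * (a - 1) * (a - l)) (f : R l) :
    evR a b h f = ev l (Family_m_mk a b h) f := by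
  obtain ⟨p, q, rfl⟩ := RL_repr f
  rw [map_add, map_mul, map_add, map_mul, Family_ev_poly, Family_ev_poly, Family_ev_y, evR_y,
    ← Polynomial.aeval_algHom_apply, ← Polynomial.aeval_algHom_apply, evR_x,
    Polynomial.coe_aeval_eq_eval, Family_m_mk1, Family_m_mk2]

theorem Family_m_ord_zero (a b : ℂ) (h : b ^ 2 = a * (a - 1) * (a - l)) {f : R l}
    (hf : ev l (Family_m_mk a b h) f ≠ 0) : algebraMap (R l) (K l) f ≠ 0 ∧
      ord (Place.pt a b h) (algebraMap (R l) (K l) f) = 0 := by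
  have h0 : f ≠ 0 := by
    intro h0
    rw [h0, map_zero] at hf
    exact hf rfl
  have h1 : algebraMap (R l) (K l) f ≠ 0 := fun h1 =>
    h0 ((IsFractionRing.injective (R l) (K l)) (by rw [h1, map_zero]))
  refine ⟨h1, le_antisymm ?_ ((ordGe_RL a b h f).le h1)⟩
  by_contra hlt
  push Not at hlt
  apply hf
  rw [← Family_m_ev, ← ordGe_one_iff]
  exact Or.inr hlt

theorem Family_m_pt_ne (τ : Tan) (S : Finset (Pt l)) (r : Pt l → ℂ) (a b : ℂ)
    (h : b ^ 2 = a * (a - 1) * (a - l)) (hS : ∀ c ∈ S, a ≠ c.1.1) :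
    mord (Place.pt a b h) (fun i => algebraMap (R l) (K l) (famV τ S r i)) = 0 := by
  have h1 : ev l (Family_m_mk a b h) (famP S ^ 2) ≠ 0 := by
    rw [map_pow]
    exact pow_ne_zero 2 (by
      rw [Family_ev_famP]
      exact Finset.prod_ne_zero_iff.2 fun b hb => sub_ne_zero.2 (hS b hb))
  exact Family_m_mord_eq τ S r _ _ (ordGe_RL a b h _) (ordGe_RL a b h _)
    (Or.inr (Family_m_ord_zero a b h h1).2)

theorem Family_m_pt_mem (τ : Tan) {S : Finset (Pt l)} (hS : Adm S) {r : Pt l → ℂ} {c : Pt l}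
    (hc : c ∈ S) (hr : r c ≠ 0) :
    mord (Place.pt c.1.1 c.1.2 c.2) (fun i => algebraMap (R l) (K l) (famV τ S r i)) = 0 := by
  have h1 : ev l c (famQ S r) ≠ 0 := by
    intro h
    have h1 := congrArg (ev l c) (famQ_eq S r)
    rw [map_mul, map_pow, h, mul_zero] at h1
    exact pow_ne_zero 2 (Family_ev_famN_ne hS hc hr) h1.symm
  exact Family_m_mord_eq τ S r _ _ (ordGe_RL _ _ c.2 _) (ordGe_RL _ _ c.2 _)
    (Or.inl (Family_m_ord_zero c.1.1 c.1.2 c.2 h1))

theorem Family_m_neg_aux (c : Pt l) : (-c.1.2) ^ 2 = c.1.1 * (c.1.1 - 1) * (c.1.1 - l) := by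
  rw [neg_sq]
  exact c.2

/-- `N` vanishes at `-c`. -/
theorem Family_m_ev_N {S : Finset (Pt l)} (r : Pt l → ℂ) {c : Pt l} (hc : c ∈ S) :
    ev l (Family_m_mk c.1.1 (-c.1.2) (Family_m_neg_aux c)) (famN S r) = 0 := by
  classical
  have hz : ∀ (f : Pt l → ℂ), ∑ a ∈ S, f a * ∏ d ∈ S.erase a, (c.1.1 - d.1.1) =
      f c * ∏ d ∈ S.erase c, (c.1.1 - d.1.1) := by
    intro f
    refine Finset.sum_eq_single c (fun a _ hab => ?_) (fun h => absurd hc h)
    have : ∏ d ∈ S.erase a, (c.1.1 - d.1.1) = 0 :=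
      Finset.prod_eq_zero (Finset.mem_erase.2 ⟨hab.symm, hc⟩) (sub_self _)
    rw [this, mul_zero]
  rw [Family_ev_famN, Family_ev_famA, Family_ev_famB, Family_m_mk1, Family_m_mk2, hz, hz]
  ring

theorem Family_m_pt_neg (τ : Tan) {S : Finset (Pt l)} (hS : Adm S) {r : Pt l → ℂ} {c : Pt l}
    (hc : c ∈ S) :
    mord (Place.pt c.1.1 (-c.1.2) (Family_m_neg_aux c))
      (fun i => algebraMap (R l) (K l) (famV τ S r i)) = 2 := by
  classical
  have hy : -c.1.2 ≠ 0 := neg_ne_zero.2 (hS.1 c hc)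
  have hx : c.1.1 ≠ 0 := Family_x_ne (hS.1 c hc)
  have hP : ord (Place.pt c.1.1 (-c.1.2) (Family_m_neg_aux c))
      (algebraMap (R l) (K l) (famP S)) = 1 := by
    unfold famP
    rw [Family_m_prod_map, Family_m_ord_prod _ _ _ fun b => Family_m_fac_ne _,
      Finset.sum_eq_single c (fun b hb hbc => ?_) (fun h => absurd hc h)]
    · exact ord_xa_one _ _ _ hy
    · exact ord_xa_ne _ _ _ _ fun h => hbc (hS.2 b hb c hc h.symm)
  have h1 : ord (Place.pt c.1.1 (-c.1.2) (Family_m_neg_aux c))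
      (algebraMap (R l) (K l) (famP S ^ 2)) = 2 := by
    rw [map_pow, ord_pow, hP]
    norm_num
  refine Family_m_mord_eq τ S r _ _ ?_ (Or.inr h1.ge) (Or.inr h1)
  rw [Family_m_Q_eq]
  have h2 : OrdGe (Place.pt c.1.1 (-c.1.2) (Family_m_neg_aux c)) 1
      (algebraMap (R l) (K l) (famN S r)) := by
    rw [ordGe_one_iff, Family_m_ev]
    exact Family_m_ev_N r hc
  have h3 : OrdGe (Place.pt c.1.1 (-c.1.2) (Family_m_neg_aux c)) 0 (xK l)⁻¹ := by
    refine Or.inr ?_
    have h4 := ord_xa_ne (l := l) 0 c.1.1 (-c.1.2) (Family_m_neg_aux c) hx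
    rw [map_zero, sub_zero] at h4
    rw [ord_inv, h4, neg_zero]
  exact (h2.mul h2).mul h3

/-- The height. At infinity the least order is `-4 a` (`a = card S`), at `-b`, `b ∈ S`, it is `2`,
at all other places `0`. -/
theorem fam_mord (τ : Tan) {S : Finset (Pt l)} (hS : Adm S) {r : Pt l → ℂ}
    (hr : ∀ b ∈ S, r b ≠ 0) :
    ∑ᶠ P : Place l, mord P (fun i => algebraMap (R l) (K l) (famV τ S r i)) =
      -((2 * S.card : ℕ) : ℤ) := by
  classical
  let ng : Pt l → Place l := fun c => Place.pt c.1.1 (-c.1.2) (Family_m_neg_aux c)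
  have hng : Set.InjOn ng S := by
    intro b hb c hc h
    have h1 : b.1.1 = c.1.1 := by
      have h2 := Place.pt.inj h
      exact h2.1
    exact hS.2 b hb c hc h1
  have hsup : (Function.support fun P : Place l =>
      mord P (fun i => algebraMap (R l) (K l) (famV τ S r i))) ⊆
      ((insert Place.inf (S.image ng) : Finset (Place l)) : Set (Place l)) := by
    intro P hP
    rw [Function.mem_support] at hP
    rw [Finset.mem_coe, Finset.mem_insert]
    cases P with
    | inf => exact Or.inl rfl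
    | pt a b h =>
      right
      by_contra hne
      apply hP
      by_cases hex : ∀ c ∈ S, a ≠ c.1.1
      · exact Family_m_pt_ne τ S r a b h hex
      · push Not at hex
        obtain ⟨c, hc, rfl⟩ := hex
        have h1 : (b - c.1.2) * (b + c.1.2) = 0 := by
          have h2 := c.2
          linear_combination h - h2
        rcases mul_eq_zero.1 h1 with h2 | h2
        · have h3 : b = c.1.2 := by linear_combination h2
          subst h3
          exact Family_m_pt_mem τ hS hc (hr c hc)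
        · exfalso
          apply hne
          have h3 : b = -c.1.2 := by linear_combination h2
          subst h3
          exact Finset.mem_image.2 ⟨c, hc, rfl⟩
  rw [finsum_eq_sum_of_support_subset _ hsup, Finset.sum_insert, Finset.sum_image hng,
    Family_m_inf τ S r, Finset.sum_congr rfl fun c hc => Family_m_pt_neg τ hS hc, Finset.sum_const,
    nsmul_eq_mul]
  · push_cast
    ring
  · intro h
    obtain ⟨c, _, h1⟩ := Finset.mem_image.1 h
    have h2 : Place.pt c.1.1 (-c.1.2) (Family_m_neg_aux c) = (Place.inf : Place l) := h1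
    cases h2

/-- `Q - x t² ∏²` at a point `β` with `x(β) ≠ 0`, `x(β) ≠ x_b`, is `x ∏² (θ(β)² - t²)`. -/
theorem ev_famQ {S : Finset (Pt l)} (r : Pt l → ℂ) {β : Pt l} (h0 : β.1.1 ≠ 0)
    (hβ : ∀ b ∈ S, β.1.1 ≠ b.1.1) :
    ev l β (famQ S r) = β.1.1 * theta' S r β ^ 2 * ev l β (famP S) ^ 2 := by
  have h1 := congrArg (ev l β) (famQ_eq S r)
  rw [map_mul, map_pow, Family_ev_x, Family_ev_famN_theta r h0 hβ] at h1
  refine mul_left_cancel₀ h0 ?_
  rw [h1]
  ring

theorem ev_famP_ne {S : Finset (Pt l)} {β : Pt l} (hβ : ∀ b ∈ S, β.1.1 ≠ b.1.1) :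
    ev l β (famP S) ≠ 0 := by
  rw [Family_ev_famP]
  exact Finset.prod_ne_zero_iff.2 fun b hb => sub_ne_zero.2 (hβ b hb)

theorem ev_famP_mem {S : Finset (Pt l)} {b : Pt l} (hb : b ∈ S) : ev l b (famP S) = 0 := by
  rw [Family_ev_famP]
  exact Finset.prod_eq_zero hb (sub_self _)

/-- `Q` does not vanish at the points of `S`. -/
theorem ev_famQ_ne {S : Finset (Pt l)} (hS : Adm S) {r : Pt l → ℂ} {b : Pt l} (hb : b ∈ S)
    (hr : r b ≠ 0) : ev l b (famQ S r) ≠ 0 := by
  intro h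
  have h1 := congrArg (ev l b) (famQ_eq S r)
  rw [map_mul, map_pow, h, mul_zero] at h1
  exact pow_ne_zero 2 (Family_ev_famN_ne hS hb hr) h1.symm

/-- The function `θ` determines `r`. -/
theorem exists_theta_ne {S : Finset (Pt l)} (hS : Adm S) {r : Pt l → ℂ} (hr : ∃ b ∈ S, r b ≠ 0) :
    ∃ β : Pt l, β.1.1 ≠ 0 ∧ (∀ b ∈ S, β.1.1 ≠ b.1.1) ∧ theta' S r β ≠ 0 := by
  classical
  obtain ⟨b, hb, hrb⟩ := hr
  have hN : famN S r ≠ 0 := by
    intro h
    apply Family_ev_famN_ne hS hb hrb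
    rw [h, map_zero]
  have hn := norm_ne_zero (l := l) hN
  set n := Algebra.norm (Polynomial ℂ) (famN S r) with hndef
  obtain ⟨x0, hx0⟩ := Set.Infinite.exists_notMem_finset (Set.infinite_univ (α := ℂ))
    (insert 0 (n.roots.toFinset ∪ S.image fun b => b.1.1))
  have hx1 : x0 ≠ 0 := fun h => hx0.2 (by rw [h]; exact Finset.mem_insert_self _ _)
  have hx2 : n.eval x0 ≠ 0 := fun h => hx0.2 (Finset.mem_insert_of_mem (Finset.mem_union_left _
    (Multiset.mem_toFinset.2 ((Polynomial.mem_roots hn).2 h))))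
  have hx3 : ∀ b ∈ S, x0 ≠ b.1.1 := fun b hb h => hx0.2 (Finset.mem_insert_of_mem
    (Finset.mem_union_right _ (Finset.mem_image.2 ⟨b, hb, h.symm⟩)))
  obtain ⟨y0, hy0⟩ := IsAlgClosed.exists_pow_nat_eq (x0 * (x0 - 1) * (x0 - l)) two_pos
  let β : Pt l := ⟨(x0, y0), hy0⟩
  refine ⟨β, hx1, hx3, fun h => ?_⟩
  apply hx2
  have h1 := congrArg (ev l β) (norm_eq (famN S r))
  rw [Family_ev_poly, map_mul, Family_ev_famN_theta r (β := β) hx1 hx3, h, mul_zero, zero_mul,
    zero_mul] at h1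
  exact h1

end Pool.Agent.Lib.MP_8ae0c1_agG
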