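import Pool.Agent.Lib.MP_8ae0c1_agG.Count
import Pool.Agent.Lib.MP_8ae0c1_agG.Family

/-!
# MP_8ae0c1_ag, T7: the dimension of the space of sections in the surface over a tangent line
-/

set_option autoImplicit false

open Pool.Agent.Lib.MP_8ae0c1_ag hiding xR yR
open EllFF TopologicalSpace

namespace Pool.Agent.Lib.MP_8ae0c1_agG

variable {l : ℂ} [Leg l]

open Classical in
/-- Extension by zero. -/
noncomputable def ext (S : Finset (Pt l)) (ρ : S → ℂ) : Pt l → ℂ :=
  fun b => if h : b ∈ S then ρ ⟨b, h⟩ else 0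

omit [Leg l] in
theorem ext_mem {S : Finset (Pt l)} (ρ : S → ℂ) {b : Pt l} (hb : b ∈ S) : ext S ρ b = ρ ⟨b, hb⟩ := by
  rw [ext, dif_pos hb]

/-- The linear form `ρ ↦ θ(β)`. -/
noncomputable def thetaL (S : Finset (Pt l)) (β : Pt l) : (S → ℂ) →ₗ[ℂ] ℂ where
  toFun ρ := theta' S (ext S ρ) β
  map_add' ρ ρ' := by
    simp only [theta', ← Finset.sum_add_distrib]
    refine Finset.sum_congr rfl fun b hb => ?_
    rw [ext_mem _ hb, ext_mem _ hb, ext_mem _ hb, Pi.add_apply, add_mul]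
  map_smul' c ρ := by
    simp only [theta', RingHom.id_apply, smul_eq_mul, Finset.mul_sum]
    refine Finset.sum_congr rfl fun b hb => ?_
    rw [ext_mem _ hb, ext_mem _ hb, Pi.smul_apply, smul_eq_mul, mul_assoc]

/-- The sections with parameters `r₀ + ρ`, `ρ ∈ W`. -/
def famSet (d : ℕ) (τ : Tan) (S : Finset (Pt l)) (W : Submodule ℂ (S → ℂ)) (r₀ : S → ℂ) :
    Set (SecD l d) :=
  {s | ∃ ρ ∈ W, (∀ b, (r₀ + ρ) b ≠ 0) ∧
    IsRep l s.1 (famV τ S (ext S (r₀ + ρ))) (famU τ S (ext S (r₀ + ρ)))}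

theorem exists_famSec {d : ℕ} (τ : Tan) {S : Finset (Pt l)} (hS : Adm S) (hd : d = 2 * S.card)
    {r : S → ℂ} (hr : ∀ b, r b ≠ 0) :
    ∃ s : SecD l d, IsRep l s.1 (famV τ S (ext S r)) (famU τ S (ext S r)) := by
  obtain ⟨s, hs⟩ := exists_sec τ S (ext S r)
  have h1 := fam_mord τ hS (r := ext S r) (fun b hb => by rw [ext_mem _ hb]; exact hr _)
  have h2 := (height_iff_rep hs d).2 (by rw [hd]; exact h1)
  exact ⟨⟨s, h2⟩, hs⟩

theorem famSet_plane {d : ℕ} (τ : Tan) (S : Finset (Pt l)) (W : Submodule ℂ (S → ℂ)) (r₀ : S → ℂ) :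
    closure (famSet d τ S W r₀) ⊆ plane l d (form (τ.p0, τ.p1)) := by
  refine closure_minimal ?_ (isClosed_plane _ _)
  rintro s ⟨ρ, -, -, h⟩
  exact (mem_plane_iff h _).2 (fam_form τ S _)

theorem dot_sub_smul (a b : Fin 3 → ℂ) (κ : ℂ) (v : Fin 3 → ℂ) :
    dot (a - κ • b) v = dot a v - κ * dot b v := by
  simp only [dot, Pi.sub_apply, Pi.smul_apply, smul_eq_mul, Algebra.algebraMap_self, RingHom.id_apply]
  ring

/-- The value of a member of the family at `β`. -/
theorem fam_value (τ : Tan) {S : Finset (Pt l)} {r : Pt l → ℂ} {β : Pt0 l}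
    (hβ : ∀ b ∈ S, β.1.1.1 ≠ b.1.1) :
    (∃ i, ev l β.1 (famV τ S r i) ≠ 0) ∧
      dot (τ.l1 - (τ.C * β.1.1.1 * theta' S r β.1 ^ 2) • τ.l2)
        (fun i => ev l β.1 (famV τ S r i)) = 0 := by
  have h2 : dot τ.l2 (fun i => ev l β.1 (famV τ S r i)) =
      1 / τ.C * ev l β.1 (famP S) ^ 2 := by
    rw [← ev_dot, fam_l2, map_mul, map_pow, ev_smul]
  have h1 : dot τ.l1 (fun i => ev l β.1 (famV τ S r i)) =
      β.1.1.1 * theta' S r β.1 ^ 2 * ev l β.1 (famP S) ^ 2 := by
    rw [← ev_dot, fam_l1, ev_famQ r β.2 hβ]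
  constructor
  · by_contra hcon
    push Not at hcon
    have h3 : dot τ.l2 (fun i => ev l β.1 (famV τ S r i)) = 0 := by
      simp only [dot, hcon, mul_zero, add_zero]
    rw [h2] at h3
    have h4 : 1 / τ.C * ev l β.1 (famP S) ^ 2 ≠ 0 :=
      mul_ne_zero (one_div_ne_zero τ.hC) (pow_ne_zero 2 (ev_famP_ne hβ))
    exact h4 h3
  · rw [dot_sub_smul, h1, h2]
    have h5 := τ.hC
    field_simp
    ring

/-- The dimension of a linear family. -/
theorem big_flag {d : ℕ} (τ : Tan) {S : Finset (Pt l)} (hS : Adm S) (hd : d = 2 * S.card) (m : ℕ) :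
    ∀ (W : Submodule ℂ (S → ℂ)), Module.finrank ℂ W = m → ∀ r₀ : S → ℂ, (∀ b, r₀ b ≠ 0) →
      Big m (closure (famSet d τ S W r₀)) := by
  have hN := noetherianSpace_SecD (l := l) d
  induction m with
  | zero =>
    intro W _ r₀ hr₀
    obtain ⟨s, hs⟩ := exists_famSec τ hS hd hr₀
    refine big_zero isClosed_closure (x := s) (subset_closure ⟨0, W.zero_mem, ?_, ?_⟩)
    · simpa using hr₀
    · simpa using hs
  | succ m ih =>
    intro W hW r₀ hr₀
    -- a direction
    obtain ⟨ρ₀, hρW, hρ0⟩ : ∃ ρ₀ ∈ W, ρ₀ ≠ 0 := by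
      have h1 : W ≠ ⊥ := by
        rintro rfl
        rw [finrank_bot] at hW
        omega
      exact (Submodule.ne_bot_iff W).1 h1
    obtain ⟨β, hβ0, hβS, hθ⟩ := exists_theta_ne hS (r := ext S ρ₀) (by
      obtain ⟨b, hb⟩ := Function.ne_iff.1 hρ0
      exact ⟨b.1, b.2, by rw [ext_mem _ b.2]; exact hb⟩)
    have hθ' : thetaL S β ρ₀ ≠ 0 := hθ
    -- the hyperplane
    let φ : W →ₗ[ℂ] ℂ := (thetaL S β).domRestrict W
    have hφ : φ ≠ 0 := by
      intro h
      exact hθ' (LinearMap.congr_fun h ⟨ρ₀, hρW⟩)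
    let W' : Submodule ℂ (S → ℂ) := (LinearMap.ker φ).map W.subtype
    have hW' : Module.finrank ℂ W' = m := by
      have h1 : Module.finrank ℂ W' = Module.finrank ℂ (LinearMap.ker φ) :=
        (Submodule.equivMapOfInjective W.subtype W.injective_subtype (LinearMap.ker φ)).finrank_eq.symm
      have h2 := Module.Dual.finrank_ker_add_one_of_ne_zero (f := φ) hφ
      omega
    have hW'W : W' ≤ W := by
      rintro _ ⟨ρ, -, rfl⟩
      exact ρ.2
    have hW'θ : ∀ ρ ∈ W', thetaL S β ρ = 0 := by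
      rintro _ ⟨ρ, hρ, rfl⟩
      exact hρ
    -- the values of the parameter
    let I : Set ℂ := {c | ∀ b, (r₀ + c • ρ₀) b ≠ 0}
    have hI : I.Infinite := by
      have h1 : (Iᶜ : Set ℂ) ⊆ ⋃ b : S, {c : ℂ | (r₀ + c • ρ₀) b = 0} := by
        intro c hc
        have h2 : ∃ b, (r₀ + c • ρ₀) b = 0 := by
          by_contra h3
          push Not at h3
          exact hc h3
        simpa using h2
      have h2 : (⋃ b : S, {c : ℂ | (r₀ + c • ρ₀) b = 0}).Finite := by
        refine Set.finite_iUnion fun b => Set.Subsingleton.finite ?_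
        intro c hc c' hc'
        have e1 : r₀ b + c * ρ₀ b = 0 := hc
        have e2 : r₀ b + c' * ρ₀ b = 0 := hc'
        have e3 : (c - c') * ρ₀ b = 0 := by linear_combination e1 - e2
        rcases mul_eq_zero.1 e3 with h | h
        · exact sub_eq_zero.1 h
        · rw [h, mul_zero, add_zero] at e1
          exact (hr₀ b e1).elim
      intro hfin
      have h3 := hfin.union (h2.subset h1)
      rw [Set.union_compl_self] at h3
      exact Set.infinite_univ h3
    let κ : ℂ → ℂ := fun c => τ.C * β.1.1 * (thetaL S β (r₀ + c • ρ₀)) ^ 2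
    refine Big.step isClosed_closure (J := ℂ) (fun c => lin d ⟨β, hβ0⟩ (τ.l1 - κ c • τ.l2)) hI ?_ ?_
    · intro c hc
      refine (ih W' hW' (r₀ + c • ρ₀) hc).mono ?_
      refine Set.subset_inter ?_ ?_
      · refine closure_mono ?_
        rintro s ⟨ρ, hρ, h1, h2⟩
        refine ⟨c • ρ₀ + ρ, W.add_mem (W.smul_mem c hρW) (hW'W hρ), ?_, ?_⟩
        · rw [← add_assoc]
          exact h1
        · rw [← add_assoc]
          exact h2
      · refine closure_minimal ?_ (isClosed_lin _ _ _)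
        rintro s ⟨ρ, hρ, h1, h2⟩
        obtain ⟨h3, h4⟩ := fam_value τ (S := S) (r := ext S (r₀ + c • ρ₀ + ρ)) (β := ⟨β, hβ0⟩) hβS
        rw [mem_lin_iff h2 h3]
        have h5 : theta' S (ext S (r₀ + c • ρ₀ + ρ)) β = thetaL S β (r₀ + c • ρ₀) := by
          have h6 : theta' S (ext S (r₀ + c • ρ₀ + ρ)) β = thetaL S β (r₀ + c • ρ₀ + ρ) := rfl
          rw [h6, map_add, hW'θ ρ hρ, add_zero]
        have h7 : κ c = τ.C * β.1.1 * theta' S (ext S (r₀ + c • ρ₀ + ρ)) β ^ 2 := by
          rw [h5]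
        rw [h7]
        exact h4
    · intro x hx
      have hpl := famSet_plane τ S W r₀ hx
      by_cases hne : ∃ c₁ ∈ I, x ∈ lin d ⟨β, hβ0⟩ (τ.l1 - κ c₁ • τ.l2)
      · obtain ⟨c₁, -, hc₁⟩ := hne
        refine (Set.toFinite {c₁, -c₁ - 2 * (thetaL S β r₀ / thetaL S β ρ₀)}).subset ?_
        rintro c ⟨-, hc⟩
        have h1 : κ c = κ c₁ := lin_unique τ hpl ⟨β, hβ0⟩ hc hc₁
        have h2 : (thetaL S β (r₀ + c • ρ₀)) ^ 2 = (thetaL S β (r₀ + c₁ • ρ₀)) ^ 2 := by
          have h3 : τ.C * β.1.1 ≠ 0 := mul_ne_zero τ.hC hβ0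
          exact mul_left_cancel₀ h3 h1
        simp only [map_add, map_smul, smul_eq_mul] at h2
        have h4 : (c - c₁) * (c + c₁ + 2 * (thetaL S β r₀ / thetaL S β ρ₀)) = 0 := by
          have h5 : thetaL S β ρ₀ * ((c - c₁) * (c + c₁ + 2 * (thetaL S β r₀ / thetaL S β ρ₀))) *
              thetaL S β ρ₀ = 0 := by
            field_simp
            linear_combination h2
          rcases mul_eq_zero.1 h5 with h6 | h6
          · exact (mul_eq_zero.1 h6).resolve_left hθ'
          · exact (hθ' h6).elim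
        rcases mul_eq_zero.1 h4 with h6 | h6
        · left
          exact sub_eq_zero.1 h6
        · right
          show c = -c₁ - 2 * (thetaL S β r₀ / thetaL S β ρ₀)
          linear_combination h6
      · refine Set.finite_empty.subset ?_
        rintro c ⟨h1, h2⟩
        exact hne ⟨c, h1, h2⟩

/-- The sections in the plane of the tangent line which pass through the point `e2` over the
points of `S`. -/
def Eset (d : ℕ) (τ : Tan) (S : Finset (Pt l)) : Set (SecD l d) :=
  {s | s ∈ plane l d (form (τ.p0, τ.p1)) ∧ ∀ b ∈ S, ∀ hb : b.1.1 ≠ 0, s ∈ lin d ⟨b, hb⟩ τ.l2}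

omit [Leg l] in
theorem isClosed_Eset (d : ℕ) (τ : Tan) (S : Finset (Pt l)) : IsClosed (Eset d τ S) := by
  have h : Eset d τ S = plane l d (form (τ.p0, τ.p1)) ∩
      ⋂ b : Pt l, ⋂ (_ : b ∈ S), ⋂ hb : b.1.1 ≠ 0, lin d ⟨b, hb⟩ τ.l2 := by
    ext s
    simp [Eset]
  rw [h]
  refine (isClosed_plane _ _).inter ?_
  exact isClosed_iInter fun b => isClosed_iInter fun _ => isClosed_iInter fun hb => isClosed_lin _ _ _

theorem big_base {d : ℕ} (τ : Tan) {S : Finset (Pt l)} (hS : Adm S) (hd : d = 2 * S.card) :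
    Big S.card (Eset d τ S) := by
  have h1 := big_flag τ hS hd (Module.finrank ℂ (⊤ : Submodule ℂ (S → ℂ))) ⊤ rfl
    (fun _ => 1) (fun _ => one_ne_zero)
  have h2 : Module.finrank ℂ (⊤ : Submodule ℂ (S → ℂ)) = S.card := by
    rw [finrank_top, Module.finrank_pi, Fintype.card_coe]
  rw [h2] at h1
  refine h1.mono (closure_minimal ?_ (isClosed_Eset d τ S))
  rintro s ⟨ρ, -, hr, h3⟩
  refine ⟨(mem_plane_iff h3 _).2 (fam_form τ S _), fun b hb hb0 => ?_⟩
  have hQ : ev l b (famQ S (ext S ((fun _ => 1) + ρ))) ≠ 0 :=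
    ev_famQ_ne hS hb (by rw [ext_mem _ hb]; exact hr _)
  have h5 : ∃ i, ev l b (famV τ S (ext S ((fun _ => 1) + ρ)) i) ≠ 0 := by
    by_contra hcon
    push Not at hcon
    apply hQ
    rw [← fam_l1 τ, ev_dot]
    simp only [dot, hcon, mul_zero, add_zero]
  rw [mem_lin_iff (P := ⟨b, hb0⟩) h3 h5]
  rw [← ev_dot, fam_l2, map_mul, map_pow]
  show _ * ev l b (famP S) ^ 2 = 0
  rw [ev_famP_mem hb]
  ring

theorem big_points (τ : Tan) {a : ℕ} (ha : 1 ≤ a) (k : ℕ) : ∀ S : Finset (Pt l), Adm S →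
    S.card + k = a → Big (a + k) (Eset (2 * a) τ S) := by
  classical
  have hN := noetherianSpace_SecD (l := l) (2 * a)
  induction k with
  | zero =>
    intro S hS hc
    have h1 := big_base (d := 2 * a) τ hS (by omega)
    have h2 : S.card = a + 0 := by omega
    rw [h2] at h1
    exact h1
  | succ k ih =>
    intro S hS hc
    let I : Set (Pt l) := {b | b.1.2 ≠ 0 ∧ ∀ c ∈ S, b.1.1 ≠ c.1.1}
    have hI : I.Infinite := by
      let A : Set ℂ := {0, 1, l} ∪ (S.image fun c : Pt l => c.1.1 : Finset ℂ)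
      have hA : A.Finite := (Set.toFinite _).union (Finset.finite_toSet _)
      refine (infinite_pt (l := l) A hA).mono ?_
      intro b hb
      have hb' : b.1.1 ∉ A := hb
      refine ⟨fun h0 => ?_, fun c hc' h1 => ?_⟩
      · have h2 := b.2
        rw [h0] at h2
        have h3 : b.1.1 * (b.1.1 - 1) * (b.1.1 - l) = 0 := by rw [← h2]; ring
        apply hb'
        left
        rcases mul_eq_zero.1 h3 with h4 | h4
        · rcases mul_eq_zero.1 h4 with h5 | h5
          · left; exact h5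
          · right; left; exact sub_eq_zero.1 h5
        · right; right; exact sub_eq_zero.1 h4
      · apply hb'
        right
        rw [Finset.coe_image]
        exact ⟨c, hc', h1.symm⟩
    have hI0 : ∀ b ∈ I, b.1.1 ≠ 0 := by
      intro b hb h0
      apply hb.1
      have h2 := b.2
      rw [h0] at h2
      have h3 : b.1.2 ^ 2 = 0 := by rw [h2]; ring
      exact pow_eq_zero_iff (two_ne_zero) |>.1 h3
    have h4 : a + (k + 1) = (a + k) + 1 := by ring
    rw [h4]
    refine Big.step (isClosed_Eset _ τ S) (J := Pt l)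
      (fun b => {s | ∀ hb : b.1.1 ≠ 0, s ∈ lin (2 * a) ⟨b, hb⟩ τ.l2}) hI ?_ ?_
    · intro b hb
      have hbS : b ∉ S := fun h => hb.2 b h rfl
      have hadm : Adm (insert b S) := by
        constructor
        · intro c hc'
          rcases Finset.mem_insert.1 hc' with rfl | h
          · exact hb.1
          · exact hS.1 c h
        · intro c hc' c' hc'' heq
          rcases Finset.mem_insert.1 hc' with rfl | h
          · rcases Finset.mem_insert.1 hc'' with rfl | h'
            · rfl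
            · exact (hb.2 c' h' heq).elim
          · rcases Finset.mem_insert.1 hc'' with rfl | h'
            · exact (hb.2 c h heq.symm).elim
            · exact hS.2 c h c' h' heq
      refine (ih (insert b S) hadm (by rw [Finset.card_insert_of_notMem hbS]; omega)).mono ?_
      rintro s ⟨h1, h2⟩
      exact ⟨⟨h1, fun c hc' => h2 c (Finset.mem_insert_of_mem hc')⟩,
        h2 b (Finset.mem_insert_self b S)⟩
    · rintro s ⟨hs, -⟩
      refine (lin_finite τ (by omega) hs).subset ?_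
      rintro b ⟨hb, h1⟩
      exact ⟨hI0 b hb, h1 (hI0 b hb)⟩

theorem big_plane (τ : Tan) {a : ℕ} (ha : 1 ≤ a) :
    Big (2 * a) (plane l (2 * a) (form (τ.p0, τ.p1))) := by
  have h1 := big_points (l := l) τ ha a ∅ ⟨by simp, by simp⟩ (by simp)
  have h2 : a + a = 2 * a := by ring
  rw [h2] at h1
  exact h1.mono fun s hs => hs.1

end Pool.Agent.Lib.MP_8ae0c1_agG
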