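import Pool.Agent.Lib.MP_8ae0c1_agG.Base

/-!
# MP_8ae0c1_ag, T7: evaluation at points
-/

set_option autoImplicit false

open Pool.Agent.Lib.MP_8ae0c1_ag hiding xR yR
open EllFF

namespace Pool.Agent.Lib.MP_8ae0c1_agG

variable {l : ℂ}

theorem ev_smul (P : Pt l) (c : ℂ) : ev l P (algebraMap ℂ (R l) c) = c := by
  have h : algebraMap ℂ (R l) c = AdjoinRoot.of (W l).polynomial (Polynomial.C c) := rfl
  rw [h, ev, AdjoinRoot.lift_of]
  exact Polynomial.eval_C

theorem ev_x (P : Pt l) : ev l P (xR l) = P.1.1 := by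
  have h : xR l = AdjoinRoot.of (W l).polynomial Polynomial.X := rfl
  rw [h, ev, AdjoinRoot.lift_of]
  exact Polynomial.eval_X

theorem ev_y (P : Pt l) : ev l P (yR l) = P.1.2 := by
  have h : yR l = AdjoinRoot.root (W l).polynomial := rfl
  rw [h, ev, AdjoinRoot.lift_root]

theorem ev_aeval (P : Pt l) (p : Polynomial ℂ) : ev l P (Polynomial.aeval (xR l) p) = p.eval P.1.1 := by
  induction p using Polynomial.induction_on' with
  | add p q hp hq => rw [map_add, map_add, hp, hq, Polynomial.eval_add]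
  | monomial n a =>
    rw [Polynomial.aeval_monomial, map_mul, map_pow, ev_smul, ev_x, Polynomial.eval_monomial]

theorem ev_dot (P : Pt l) (a : Fin 3 → ℂ) (v : Fin 3 → R l) :
    ev l P (dot a v) = dot a (fun i => ev l P (v i)) := by
  simp only [dot, map_add, map_mul, ev_smul]
  rfl

/-- An element of the coordinate ring has finitely many zeros. -/
theorem finite_zeros {g : R l} (hg : g ≠ 0) : {P : Pt l | ev l P g = 0}.Finite := by
  have hN : Algebra.norm (Polynomial ℂ) g ≠ 0 := norm_ne_zero hg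
  have h1 : {P : Pt l | ev l P g = 0} ⊆
      ⋃ a ∈ (Algebra.norm (Polynomial ℂ) g).roots.toFinset, {P : Pt l | P.1.1 = a} := by
    intro P hP
    simp only [Set.mem_iUnion, exists_prop]
    refine ⟨P.1.1, ?_, rfl⟩
    rw [Multiset.mem_toFinset, Polynomial.mem_roots hN]
    have h2 := congrArg (ev l P) (norm_eq g)
    rw [ev_aeval, map_mul, show ev l P g = 0 from hP, zero_mul] at h2
    exact h2
  refine (Set.Finite.biUnion (Finset.finite_toSet _) fun a _ => ?_).subset h1
  have h3 : Set.InjOn (fun P : Pt l => P.1.2) {P : Pt l | P.1.1 = a} := by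
    intro P hP Q hQ hPQ
    exact Subtype.ext (Prod.ext (hP.trans hQ.symm) hPQ)
  refine Set.Finite.of_finite_image ?_ h3
  have h4 : ({y : ℂ | (Polynomial.X ^ 2 - Polynomial.C (a * (a - 1) * (a - l))).IsRoot y}).Finite := by
    refine Polynomial.finite_setOfPred_isRoot ?_
    exact Polynomial.X_pow_sub_C_ne_zero (by norm_num) _
  refine h4.subset ?_
  rintro _ ⟨P, hP, rfl⟩
  have h5 := P.2
  rw [show P.1.1 = a from hP] at h5
  simp only [Set.mem_ofPred_eq, Polynomial.IsRoot, Polynomial.eval_sub, Polynomial.eval_pow,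
    Polynomial.eval_X, Polynomial.eval_C]
  rw [h5, sub_self]

/-- There are infinitely many points with `x` outside a finite set. -/
theorem exists_pt {l : ℂ} (a : ℂ) : ∃ P : Pt l, P.1.1 = a := by
  obtain ⟨y, hy⟩ := IsAlgClosed.exists_pow_nat_eq (a * (a - 1) * (a - l)) (n := 2) (by norm_num)
  exact ⟨⟨(a, y), hy⟩, rfl⟩

theorem infinite_pt {l : ℂ} (A : Set ℂ) (hA : A.Finite) : {P : Pt l | P.1.1 ∉ A}.Infinite := by
  intro hfin
  have h1 : (Aᶜ : Set ℂ) ⊆ (fun P : Pt l => P.1.1) '' {P : Pt l | P.1.1 ∉ A} := by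
    intro a ha
    obtain ⟨P, hP⟩ := exists_pt (l := l) a
    refine ⟨P, ?_, hP⟩
    show P.1.1 ∉ A
    rw [hP]
    exact ha
  have h2 : (Aᶜ : Set ℂ).Finite := (hfin.image _).subset h1
  have h3 := hA.union h2
  rw [Set.union_compl_self] at h3
  exact Set.infinite_univ h3

end Pool.Agent.Lib.MP_8ae0c1_agG
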