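import Pool.Agent.Lib.MP_8ae0c1_agG.Tan

/-!
# MP_8ae0c1_ag, T7, leaf S: the component does not lie in a surface
-/

set_option autoImplicit false

open Pool.Agent.Lib.MP_8ae0c1_ag hiding xR yR
open EllFF

namespace Pool.Agent.Lib.MP_8ae0c1_agG

theorem eval_smul_hom {K : Type} [CommRing K] {H : MvPolynomial (Fin 3) K} {n : ℕ}
    (h : H.IsHomogeneous n) (g : K) (x : Fin 3 → K) :
    MvPolynomial.eval (fun i => g * x i) H = g ^ n * MvPolynomial.eval x H := by
  rw [MvPolynomial.eval_eq', MvPolynomial.eval_eq', Finset.mul_sum]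
  refine Finset.sum_congr rfl fun d hd => ?_
  have h1 := h (MvPolynomial.mem_support_iff.mp hd)
  have h2 : ∑ i, d i = n := by
    rw [← h1, Finsupp.weight_apply, Finsupp.sum_fintype]
    · simp
    · intro i; simp
  have h3 : ∏ i, (g * x i) ^ d i = g ^ n * ∏ i, x i ^ d i := by
    rw [← h2, ← Finset.prod_pow_eq_pow_sum, ← Finset.prod_mul_distrib]
    exact Finset.prod_congr rfl fun i _ => mul_pow _ _ _
  rw [h3]
  ring

theorem exists_uni {K : Type} [CommRing K] (H : MvPolynomial (Fin 3) K)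
    (φ : Fin 3 → Polynomial K) : ∃ h : Polynomial K,
      ∀ t, h.eval t = MvPolynomial.eval (fun i => (φ i).eval t) H := by
  refine ⟨MvPolynomial.aeval φ H, fun t => ?_⟩
  induction H using MvPolynomial.induction_on with
  | C a => simp [Polynomial.algebraMap_eq]
  | add p q hp hq => rw [map_add, Polynomial.eval_add, hp, hq, map_add]
  | mul_X p i hp => rw [map_mul, Polynomial.eval_mul, hp, MvPolynomial.aeval_X, map_mul, MvPolynomial.eval_X]

variable {l : ℂ} [Leg l] {d : ℕ}

omit [Leg l] in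
theorem surf_exists_rep (s : SecD l d) : ∃ (v : Fin 3 → R l) (u : R l), IsRep l s.1 v u := by
  obtain ⟨⟨v, u, h, _⟩, _⟩ := s.2
  exact ⟨v, u, h⟩

omit [Leg l] in
theorem xK_ne : algebraMap (R l) (K l) (Pool.Agent.Lib.MP_8ae0c1_ag.xR l) ≠ 0 :=
  xK_ne_zero (Ω := ℂ) (l := l)

omit [Leg l] in
/-- (1) The form vanishes at the points of the plane with nonzero last coordinate. -/
theorem step1 {M : Set (SecD l d)} {n : ℕ} {H : MvPolynomial (Fin 3) (K l)}
    (hH : H.IsHomogeneous n)
    (hM : ∀ s ∈ M, ∀ v u, IsRep l s.1 v u →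
      MvPolynomial.eval (fun i => algebraMap (R l) (K l) (v i)) H = 0)
    (τ : Tan) (hinf : (M ∩ plane l d (form (τ.p0, τ.p1))).Infinite)
    (hplane : ∀ (s : SecD l d) (v : Fin 3 → R l) (u : R l) (a : Fin 3 → ℂ), IsRep l s.1 v u →
      (s ∈ plane l d a ↔ dot a v = 0)) (x : Fin 3 → ℂ) (hx : dot (form (τ.p0, τ.p1)) x = 0)
    (hx2 : x 2 ≠ 0) : MvPolynomial.eval (fun i => algebraMap ℂ (K l) (x i)) H = 0 := by
  classical
  -- representatives
  choose v u hvu using fun s : SecD l d => surf_exists_rep s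
  set S := M ∩ plane l d (form (τ.p0, τ.p1)) with hS
  -- coordinates in K
  let vK : SecD l d → Fin 3 → K l := fun s i => algebraMap (R l) (K l) (v s i)
  let al : K l := algebraMap ℂ (K l) (τ.p1 / τ.p0 ^ 3)
  let be : K l := algebraMap ℂ (K l) (1 / τ.p0 ^ 3)
  let TT : (Fin 3 → K l) → K l := fun w => al * w 2 - be * w 1
  have hdot : ∀ s ∈ S, dot (form (τ.p0, τ.p1)) (vK s) = 0 := by
    intro s hs
    have h1 := (hplane s (v s) (u s) _ (hvu s)).mp hs.2
    have h2 := congrArg (algebraMap (R l) (K l)) h1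
    unfold dot at h2 ⊢
    simp only [map_add, map_mul, map_zero, ← IsScalarTower.algebraMap_apply] at h2
    exact h2
  have hpt : ∀ s ∈ S, vK s = τ.pt (vK s 2) (TT (vK s)) := fun s hs => eq_pt τ (hdot s hs)
  obtain ⟨h, hh⟩ := exists_uni H (fun i => τ.pt (A := Polynomial (K l)) 1 Polynomial.X i)
  have hh' : ∀ t, h.eval t = MvPolynomial.eval (τ.pt (A := K l) 1 t) H := by
    intro t
    rw [hh t]
    congr 1
    congr 1
    funext i
    fin_cases i <;> simp [Tan.pt, Polynomial.algebraMap_apply]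
  have hzero : ∀ s ∈ S, vK s 2 ≠ 0 → h.eval (TT (vK s) / vK s 2) = 0 := by
    intro s hs hz
    rw [hh']
    have h1 := hM s hs.1 (v s) (u s) (hvu s)
    have h2 : (fun i => algebraMap (R l) (K l) (v s i)) =
        fun i => vK s 2 * τ.pt (A := K l) 1 (TT (vK s) / vK s 2) i := by
      have h3 := hpt s hs
      funext i
      have h4 := congrFun h3 i
      show vK s i = _
      rw [h4]
      fin_cases i <;> simp [Tan.pt] <;> field_simp
    rw [h2, eval_smul_hom hH] at h1
    rcases mul_eq_zero.mp h1 with h5 | h5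
    · exact absurd h5 (pow_ne_zero n hz)
    · exact h5
  -- the class
  let cl : SecD l d → Option (K l) := fun s =>
    if vK s 2 = 0 then none else some (TT (vK s) / vK s 2)
  have hne : ∀ s, vK s ≠ 0 := by
    intro s h0
    obtain ⟨p, _, hp2, _⟩ := hvu s
    exact p.2.1 (hp2.trans h0)
  have hfib : ∀ s ∈ S, ∀ s' ∈ S, cl s = cl s' → ∃ g : K l, g ≠ 0 ∧ vK s' = g • vK s := by
    intro s hs s' hs' hcl
    have h3 := hpt s hs
    have h3' := hpt s' hs'
    simp only [cl] at hcl
    by_cases hz : vK s 2 = 0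
    · have hz' : vK s' 2 = 0 := by
        by_contra hz'
        simp [hz, hz'] at hcl
      have hT : TT (vK s) ≠ 0 := by
        intro hT
        apply hne s
        rw [h3, hz, hT]
        funext i
        fin_cases i <;> simp [Tan.pt]
      have hT' : TT (vK s') ≠ 0 := by
        intro hT
        apply hne s'
        rw [h3', hz', hT]
        funext i
        fin_cases i <;> simp [Tan.pt]
      refine ⟨TT (vK s') / TT (vK s), div_ne_zero hT' hT, ?_⟩
      rw [hz] at h3
      rw [hz'] at h3'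
      generalize TT (vK s') = a' at *
      generalize TT (vK s) = a at *
      rw [h3, h3']
      funext i
      fin_cases i <;> simp [Tan.pt] <;> field_simp
    · have hz' : vK s' 2 ≠ 0 := by
        intro hz'
        simp [hz, hz'] at hcl
      simp only [hz, hz', if_false, Option.some.injEq] at hcl
      refine ⟨vK s' 2 / vK s 2, div_ne_zero hz' hz, ?_⟩
      have hTT : TT (vK s') = vK s' 2 / vK s 2 * TT (vK s) := by
        rw [div_eq_div_iff hz hz'] at hcl
        field_simp
        linear_combination -hcl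
      rw [hTT] at h3'
      generalize TT (vK s) = a at *
      generalize vK s' 2 = b' at *
      generalize vK s 2 = b at *
      rw [h3, h3']
      funext i
      fin_cases i <;> simp [Tan.pt] <;> field_simp
  have hfin : ∀ s ∈ S, (S ∩ cl ⁻¹' {cl s}).Finite := by
    intro s hs
    obtain ⟨p0, hp1, hp2, _⟩ := hvu s
    let p0' : Sol l := ⟨(p0.1.1, -p0.1.2), p0.2.1, by
      have := p0.2.2
      simpa using this⟩
    have hfs : ({(⟦p0⟧ : Sec l), (⟦p0'⟧ : Sec l)} : Set (Sec l)).Finite := Set.toFinite _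
    refine (hfs.preimage (f := (Subtype.val : SecD l d → Sec l))
      Subtype.val_injective.injOn).subset ?_
    rintro s' ⟨hs', hcl⟩
    obtain ⟨g, hg, hgv⟩ := hfib s hs s' hs' (by simpa using hcl.symm)
    obtain ⟨p, hp1', hp2', _⟩ := hvu s'
    have hpv : p.1.1 = g • p0.1.1 := by
      rw [hp2', hp2]
      exact hgv
    have hq : quart p.1.1 = g ^ 4 * quart p0.1.1 := by
      rw [hpv]
      simp only [quart, Pi.smul_apply, smul_eq_mul]
      ring
    have hw : p.1.2 ^ 2 = (g ^ 2 * p0.1.2) ^ 2 := by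
      have h1 := p.2.2
      have h2 := p0.2.2
      rw [hq, ← h2] at h1
      apply mul_left_cancel₀ (xK_ne (l := l))
      rw [h1]
      ring
    show s'.1 ∈ ({(⟦p0⟧ : Sec l), (⟦p0'⟧ : Sec l)} : Set (Sec l))
    rcases sq_eq_sq_iff_eq_or_eq_neg.mp hw with hw | hw
    · left
      rw [← hp1']
      exact (Quotient.sound (s := Sol.setoid l) (⟨g, hg, hpv, hw⟩ : Sol.Rel l p0 p)).symm
    · right
      show s'.1 = (⟦p0'⟧ : Sec l)
      rw [← hp1']
      refine (Quotient.sound (s := Sol.setoid l) (⟨g, hg, hpv, ?_⟩ : Sol.Rel l p0' p)).symm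
      rw [hw]
      show _ = g ^ 2 * -p0.1.2
      ring
  have hh0 : h = 0 := by
    by_contra hne0
    apply hinf
    refine Set.Finite.of_finite_fibers cl ?_ ?_
    · refine ((Set.finite_singleton (none : Option (K l))).union
        ((h.roots.toFinset.finite_toSet).image some)).subset ?_
      rintro _ ⟨s, hs, rfl⟩
      by_cases hz : vK s 2 = 0
      · left
        simp [cl, hz]
      · right
        refine ⟨TT (vK s) / vK s 2, ?_, by simp [cl, hz]⟩
        simp only [Finset.mem_coe, Multiset.mem_toFinset]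
        exact (Polynomial.mem_roots hne0).mpr (hzero s hs hz)
    · rintro _ ⟨s, hs, rfl⟩
      exact hfin s hs
  -- evaluate
  have hxK : (fun i => algebraMap ℂ (K l) (x i)) =
      fun i => algebraMap ℂ (K l) (x 2) * τ.pt (A := K l) 1
        (TT (fun i => algebraMap ℂ (K l) (x i)) / algebraMap ℂ (K l) (x 2)) i := by
    have hx' : dot (form (τ.p0, τ.p1)) (fun i => algebraMap ℂ (K l) (x i)) = 0 := by
      have h2 := congrArg (algebraMap ℂ (K l)) hx
      unfold dot at h2 ⊢
      simp only [map_add, map_mul, map_zero] at h2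
      exact h2
    have h3 := eq_pt τ hx'
    have hx2' : algebraMap ℂ (K l) (x 2) ≠ 0 := by
      intro h0
      exact hx2 ((map_eq_zero _).mp h0)
    funext i
    have h4 := congrFun h3 i
    rw [h4]
    fin_cases i <;> simp [Tan.pt, TT, al, be] <;> field_simp
  rw [hxK, eval_smul_hom hH, ← hh', hh0]
  simp

/-- LEAF S. Proof: suppose `H` homogeneous of degree `n` vanishes on all sections of `M`.
(1) Let `p` be one of the infinitely many points, `τ : Tan` over it. For a section `s` in
`M ∩ plane` with representative `(v, u)`: `v = τ.pt Z T`, `Z, T` not both 0, and the class of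
`(Z : T)` in `P¹(K)` determines `s` up to the sign of `u` (`u² = x quart v`). So there are infinitely
many classes and the binary form `H (τ.pt Z T)` is zero: `H` vanishes at all `K`-points of the plane
`dot (form p) = 0`. (2) For `x₀ = (X0, Y0, Z0) ∈ ℂ³`, `X0 ≠ 0`, the point `x₀ - (dot (form p) x₀) e₂`
lies in the plane of `p`; by `lines_finite` these are infinitely many points of the line
`x₀ + s e₂`, so `H x₀ = 0`. (3) `H = 0`. -/
theorem not_inSurface {l : ℂ} [Leg l] {d : ℕ} {M : Set (SecD l d)} {I : Set (ℂ × ℂ)}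
    (hI : I.Infinite) (hg : I ⊆ good) (h : ∀ p ∈ I, (M ∩ plane l d (form p)).Infinite)
    (hplane : ∀ (s : SecD l d) (v : Fin 3 → R l) (u : R l) (a : Fin 3 → ℂ), IsRep l s.1 v u →
      (s ∈ plane l d a ↔ dot a v = 0)) : ¬ InSurface l d M := by
  classical
  rintro ⟨n, H, hH0, hH, hM⟩
  have key : ∀ p ∈ I, ∀ X0 Y0 : ℂ, p.1 ^ 3 * X0 + p.2 ^ 3 * Y0 ≠ 0 →
      MvPolynomial.eval (fun i => algebraMap ℂ (K l)
        ((![X0, Y0, -(p.1 ^ 3 * X0 + p.2 ^ 3 * Y0)] : Fin 3 → ℂ) i)) H = 0 := by
    intro p hp X0 Y0 hne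
    obtain ⟨τ, h1, h2⟩ := hg hp
    have hpp : p = (τ.p0, τ.p1) := by rw [h1, h2]
    refine step1 hH hM τ ?_ hplane _ ?_ ?_
    · rw [← hpp]; exact h p hp
    · rw [hpp]
      simp [dot, form]
    · show -(p.1 ^ 3 * X0 + p.2 ^ 3 * Y0) ≠ 0
      exact neg_ne_zero.mpr hne
  have h2 : ∀ X0 : ℂ, X0 ≠ 0 → ∀ Y0 Z0 : ℂ,
      MvPolynomial.eval (fun i => algebraMap ℂ (K l) ((![X0, Y0, Z0] : Fin 3 → ℂ) i)) H = 0 := by
    intro X0 hX Y0 Z0
    obtain ⟨f, hf⟩ := exists_uni H (![Polynomial.C (algebraMap ℂ (K l) X0),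
      Polynomial.C (algebraMap ℂ (K l) Y0), Polynomial.X])
    have hf' : ∀ z : ℂ, f.eval (algebraMap ℂ (K l) z) =
        MvPolynomial.eval (fun i => algebraMap ℂ (K l) ((![X0, Y0, z] : Fin 3 → ℂ) i)) H := by
      intro z
      rw [hf]
      congr 1
      congr 1
      funext i
      fin_cases i <;> simp
    have hf0 : f = 0 := by
      -- infinitely many values
      let g : ℂ × ℂ → ℂ := fun p => p.1 ^ 3 * X0 + p.2 ^ 3 * Y0
      have himg : (g '' I).Infinite := by
        intro hfin
        apply hI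
        refine Set.Finite.of_finite_fibers g hfin ?_
        rintro z _
        refine (lines_finite hX Y0 z).subset ?_
        rintro p ⟨hp, hz⟩
        exact ⟨hg hp, hz⟩
      have himg' : ((g '' I) \ {0}).Infinite := himg.sdiff (Set.finite_singleton 0)
      refine Polynomial.eq_zero_of_infinite_isRoot f ?_
      refine (himg'.image (f := fun z : ℂ => algebraMap ℂ (K l) (-z)) ?_).mono ?_
      · intro a _ b _ hab
        have := (algebraMap ℂ (K l)).injective hab
        exact neg_injective this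
      · rintro _ ⟨z, ⟨⟨p, hp, rfl⟩, hz⟩, rfl⟩
        show f.eval _ = 0
        rw [hf']
        exact key p hp X0 Y0 hz
    rw [← hf', hf0, Polynomial.eval_zero]
  apply hH0
  refine MvPolynomial.funext_set (s := fun i : Fin 3 =>
    (fun z : ℂ => algebraMap ℂ (K l) z) '' ({0}ᶜ : Set ℂ)) ?_ ?_
  · intro i
    refine Set.Infinite.image ?_ ?_
    · intro a _ b _ hab
      exact (algebraMap ℂ (K l)).injective hab
    · exact (Set.finite_singleton (0 : ℂ)).infinite_compl
  · intro x hx
    have hx' : ∀ i, ∃ z : ℂ, z ≠ 0 ∧ algebraMap ℂ (K l) z = x i := by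
      intro i
      obtain ⟨z, hz, hz'⟩ := hx i (Set.mem_univ i)
      exact ⟨z, hz, hz'⟩
    choose z hz hz' using hx'
    have hxz : x = fun i => algebraMap ℂ (K l) ((![z 0, z 1, z 2] : Fin 3 → ℂ) i) := by
      funext i
      rw [← hz']
      fin_cases i <;> simp
    rw [hxz, h2 (z 0) (hz 0), map_zero]

end Pool.Agent.Lib.MP_8ae0c1_agG

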