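import Pool.Agent.Lib.MP_8ae0c1_agG.Dim
import Pool.Agent.Lib.MP_8ae0c1_agG.Surf

/-!
# MP_8ae0c1_ag, T7: a component of dimension at least `d + 1` for even `d`
-/

set_option autoImplicit false

open Pool.Agent.Lib.MP_8ae0c1_ag hiding xR yR
open EllFF TopologicalSpace

namespace Pool.Agent.Lib.MP_8ae0c1_agG

theorem even_part' {l : ℂ} [Leg l] (a : ℕ) (ha : 1 ≤ a) :
    ∃ M ∈ irreducibleComponents (SecD l (2 * a)),
      ((2 * a + 1 : ℕ) : WithBot ℕ∞) ≤ topologicalKrullDim M ∧ ¬ InSurface l (2 * a) M := by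
  have hN := noetherianSpace_SecD (l := l) (2 * a)
  obtain ⟨M, hM, hdim, hinf⟩ := Big.component (S := SecD l (2 * a)) (n := 2 * a) (J := ℂ × ℂ)
    (fun p => plane l (2 * a) (form p)) good_infinite (by
      rintro p ⟨τ, h1, h2⟩
      have h3 := big_plane (l := l) τ ha
      have h4 : (τ.p0, τ.p1) = p := Prod.ext h1 h2
      rw [h4] at h3
      exact h3) (fun s => plane_finite (by omega) s)
  refine ⟨M, hM, hdim, not_inSurface hinf (fun p hp => hp.1) (fun p hp => hp.2 (by omega)) ?_⟩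
  intro s v u a' h
  exact mem_plane_iff h a'

end Pool.Agent.Lib.MP_8ae0c1_agG
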