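import Pool.Agent.Lib.MP_8ae0c1_ag.FinDim
import Pool.Agent.Lib.MP_8ae0c1_agH.Bridge
import Pool.Agent.Lib.MP_8ae0c1_agG.Even
import Pool.Agent.Lib.MP_8ae0c1_ag.Asym

/-!
# MP_8ae0c1_ag: assembly
-/

set_option autoImplicit false

open Pool.Agent.Lib.MP_8ae0c1_ag hiding xR yR
open EllFF TopologicalSpace Filter Topology
open scoped ENNReal

namespace Pool.Agent.Lib.MP_8ae0c1_agG

theorem leg_of_transcendental {l : ℂ} (hl : Transcendental ℚ l) : Leg l where
  ne0 := by
    rintro rfl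
    exact hl isAlgebraic_zero
  ne1 := by
    rintro rfl
    exact hl isAlgebraic_one

/-- Odd heights. -/
theorem odd_chain {l : ℂ} (hl : Transcendental ℚ l) {d : ℕ} (hd : Odd d)
    (s : LTSeries (IrreducibleCloseds (SecD l d))) : s.length ≤ d := by
  by_contra hcon
  push Not at hcon
  obtain ⟨Ω, _, _, _, l', _, p, E, D, hE, hD, hH, hind⟩ := Pool.Agent.Lib.MP_8ae0c1_agH.bridge l hl d (d + 1)
    (fun i => (s ⟨i.1, by omega⟩ : Set (SecD l d))) (fun i => (s _).isIrreducible)
    (fun i => (s _).isClosed) (by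
      intro i j hij
      have h1 : s ⟨i.1, by omega⟩ < s ⟨j.1, by omega⟩ := s.strictMono hij
      exact h1)
  obtain ⟨a, ha, h1⟩ := B_alg p d hd hH E hE D hD
  exact ha (hind a h1)

theorem odd_part {l : ℂ} (hl : Transcendental ℚ l) {d : ℕ} (hd : Odd d) (M : Set (SecD l d)) :
    topologicalKrullDim M ≤ d := by
  have h1 : topologicalKrullDim M ≤ topologicalKrullDim (SecD l d) :=
    topologicalKrullDim_subspace_le _ M
  refine h1.trans (iSup_le fun s => ?_)
  exact_mod_cast odd_chain hl hd s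

/-- The ratio `wt q M / q ^ i` does not increase with `q` if `dim M ≤ i`. -/
theorem wt_ratio {T : Type} [TopologicalSpace T] {M : Set T} {i : ℕ}
    (hM : topologicalKrullDim M ≤ i) {q q' : ℝ} (hq : 1 < q) (hqq : q ≤ q') :
    wt q' M / ENNReal.ofReal (q' ^ i) ≤ wt q M / ENNReal.ofReal (q ^ i) := by
  have hq0 : 0 < q := by linarith
  have hq0' : 0 < q' := by linarith
  rw [wt, ENNReal.iSup_div]
  refine iSup_le fun n => ?_
  rw [ENNReal.iSup_div]
  refine iSup_le fun hn => ?_
  have hni : n ≤ i := by exact_mod_cast hn.trans hM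
  have h1 : ENNReal.ofReal (q ^ n) ≤ wt q M := by
    rw [wt]
    exact le_iSup_of_le n (le_iSup_of_le hn le_rfl)
  refine le_trans ?_ (ENNReal.div_le_div_right h1 _)
  rw [← ENNReal.ofReal_div_of_pos (by positivity), ← ENNReal.ofReal_div_of_pos (by positivity)]
  refine ENNReal.ofReal_le_ofReal ?_
  rw [div_le_div_iff₀ (by positivity) (by positivity)]
  obtain ⟨k, rfl⟩ := Nat.exists_eq_add_of_le hni
  have h2 : q ^ k ≤ q' ^ k := pow_le_pow_left₀ hq0.le hqq k
  calc q' ^ n * q ^ (n + k) = q' ^ n * q ^ n * q ^ k := by ring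
    _ ≤ q' ^ n * q ^ n * q' ^ k := mul_le_mul_of_nonneg_left h2 (by positivity)
    _ = q ^ n * q' ^ (n + k) := by ring

/-- The dimension of the space of sections of height `d` is at most `3 (d + 1)`. -/
theorem dim_le {l : ℂ} (hl : Transcendental ℚ l) {d : ℕ} (M : Set (SecD l d)) :
    topologicalKrullDim M ≤ (3 * (d + 1) : ℕ) := by
  have h1 : topologicalKrullDim M ≤ topologicalKrullDim (SecD l d) :=
    topologicalKrullDim_subspace_le _ M
  refine h1.trans (iSup_le fun s => ?_)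
  obtain ⟨Ω, _, _, _, l', _, p, E, D, hE, hD, hH, hind⟩ :=
    Pool.Agent.Lib.MP_8ae0c1_agH.bridge l hl d s.length
    (fun i => (s i : Set (SecD l d))) (fun i => (s _).isIrreducible)
    (fun i => (s _).isClosed) (by
      intro i j hij
      exact s.strictMono hij)
  have h2 := finDim p d hH s.length D hD hind
  exact_mod_cast h2

/-- The counting function is finite. -/
theorem ncount_lt_top {l : ℂ} (hl : Transcendental ℚ l) (Man : (i : ℕ) → Set (Set (SecD l i)))
    (hMan : ∀ i, Man i ⊆ irreducibleComponents (SecD l i)) (q : ℝ) (hq : 1 < q) (d : ℕ) :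
    Ncount l Man q d < ⊤ := by
  have hleg := leg_of_transcendental hl
  rw [Ncount, ENNReal.sum_lt_top]
  intro i _
  have hN : NoetherianSpace (SecD l i) := noetherianSpace_SecD i
  have hfin : (Man i).Finite := (NoetherianSpace.finite_irreducibleComponents).subset (hMan i)
  have : Fintype (Man i) := hfin.fintype
  rw [tsum_fintype, ENNReal.sum_lt_top]
  intro M _
  refine lt_of_le_of_lt ?_ (ENNReal.ofReal_lt_top (r := q ^ (3 * (i + 1))))
  rw [wt]
  refine iSup_le fun n => iSup_le fun hn => ?_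
  have h1 : n ≤ 3 * (i + 1) := by exact_mod_cast hn.trans (dim_le hl M.1)
  exact ENNReal.ofReal_le_ofReal (pow_le_pow_right₀ hq.le h1)

theorem no_limit {l : ℂ} (hl : Transcendental ℚ l) (Man : (i : ℕ) → Set (Set (SecD l i)))
    (hMan2 : ∀ i, ∀ M ∈ irreducibleComponents (SecD l i), ¬ InSurface l i M → M ∈ Man i) :
    ∃ Q : ℝ, ∀ q : ℝ, 1 < q → Q ≤ q → ¬ ∃ C : ℝ,
      Tendsto (fun d : ℕ => Ncount l Man q d / ENNReal.ofReal (q ^ d)) atTop
        (𝓝 (ENNReal.ofReal C)) := by
  have hleg := leg_of_transcendental hl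
  obtain ⟨Q, hQ1, hQ⟩ := asym_bad (fun i q => ∑' M : Man i, wt q M.1) (by
    intro k hk q hq
    obtain ⟨M, hM, hdim, hsurf⟩ := even_part' (l := l) k hk
    have h1 : M ∈ Man (2 * k) := hMan2 _ M hM hsurf
    have h2 : ENNReal.ofReal (q ^ (2 * k + 1)) ≤ wt q M := by
      rw [wt]
      exact le_iSup_of_le (2 * k + 1) (le_iSup_of_le hdim le_rfl)
    exact h2.trans (ENNReal.le_tsum (f := fun M : Man (2 * k) => wt q M.1) ⟨M, h1⟩)) (by
    intro k q q' hq hqq
    simp only [ENNReal.div_eq_inv_mul, ← ENNReal.tsum_mul_left]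
    refine ENNReal.tsum_le_tsum fun M => ?_
    have h1 := wt_ratio (M := M.1) (odd_part hl (d := 2 * k + 1) ⟨k, rfl⟩ M.1) hq hqq
    simpa only [ENNReal.div_eq_inv_mul] using h1)
  exact ⟨Q, fun q _ hq => hQ q hq⟩

end Pool.Agent.Lib.MP_8ae0c1_agG
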