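import Pool.Agent.Lib.MP_8ae0c1_agG.Reps

/-!
# MP_8ae0c1_ag, T7, leaf N: the space of sections of height `d` is Noetherian
-/

set_option autoImplicit false

open Pool.Agent.Lib.MP_8ae0c1_ag hiding xR yR
open EllFF TopologicalSpace

namespace Pool.Agent.Lib.MP_8ae0c1_agG

noncomputable section NN

variable {l : ℂ}

/-- The element of the coordinate ring with given coefficients. -/
def ncf {N : ℕ} (a : Fin 2 × Fin N → ℂ) : R l :=
  ∑ n : Fin N, algebraMap ℂ (R l) (a (0, n)) * EllFF.xR l ^ (n : ℕ) +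
    (∑ n : Fin N, algebraMap ℂ (R l) (a (1, n)) * EllFF.xR l ^ (n : ℕ)) * EllFF.yR l

theorem N_ev_x (P : Pt l) : ev l P (EllFF.xR l) = P.1.1 := by
  unfold ev
  show AdjoinRoot.lift _ _ _ (AdjoinRoot.of _ Polynomial.X) = _
  rw [AdjoinRoot.lift_of]
  simp

theorem N_ev_y (P : Pt l) : ev l P (EllFF.yR l) = P.1.2 := by
  unfold ev
  show AdjoinRoot.lift _ _ _ (AdjoinRoot.root _) = _
  rw [AdjoinRoot.lift_root]

theorem N_ev_c (P : Pt l) (c : ℂ) : ev l P (algebraMap ℂ (R l) c) = c := by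
  unfold ev
  show AdjoinRoot.lift _ _ _ (AdjoinRoot.of _ (Polynomial.C c)) = _
  rw [AdjoinRoot.lift_of]
  simp

theorem N_ev_ncf {N : ℕ} (P : Pt l) (a : Fin 2 × Fin N → ℂ) :
    ev l P (ncf a) = ∑ n : Fin N, a (0, n) * P.1.1 ^ (n : ℕ) +
      (∑ n : Fin N, a (1, n) * P.1.1 ^ (n : ℕ)) * P.1.2 := by
  unfold ncf
  simp only [map_add, map_mul, map_sum, map_pow, N_ev_x, N_ev_y, N_ev_c]

theorem N_exists_ncf {d : ℕ} {f : R l} (hf : pole l f ≤ 2 * d + 5) :
    ∃ a : Fin 2 × Fin (d + 4) → ℂ, ncf a = f := by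
  obtain ⟨p, q, rfl⟩ := WeierstrassCurve.Affine.CoordinateRing.exists_smul_basis_eq f
  have h1 := Polynomial.degree_le_of_natDegree_le hf
  rw [WeierstrassCurve.Affine.CoordinateRing.degree_norm_smul_basis] at h1
  have h2 := le_trans (le_max_left _ _) h1
  have h3 := le_trans (le_max_right _ _) h1
  have hp : p.natDegree < d + 4 := by
    by_cases h0 : p = 0
    · rw [h0, Polynomial.natDegree_zero]
      omega
    · rw [Polynomial.degree_eq_natDegree h0] at h2
      have h4 : 2 * p.natDegree ≤ 2 * d + 5 := by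
        rw [nsmul_eq_mul] at h2
        exact_mod_cast h2
      omega
  have hq : q.natDegree < d + 4 := by
    by_cases h0 : q = 0
    · rw [h0, Polynomial.natDegree_zero]
      omega
    · rw [Polynomial.degree_eq_natDegree h0] at h3
      have h4 : 2 * q.natDegree + 3 ≤ 2 * d + 5 := by
        rw [nsmul_eq_mul] at h3
        exact_mod_cast h3
      omega
  refine ⟨fun k => if k.1 = 0 then p.coeff k.2 else q.coeff k.2, ?_⟩
  have e1 : ∀ r : Polynomial ℂ, r.natDegree < d + 4 →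
      ∑ n : Fin (d + 4), algebraMap ℂ (R l) (r.coeff n) * EllFF.xR l ^ (n : ℕ) =
        algebraMap (Polynomial ℂ) (R l) r := by
    intro r hr
    have h5 := EllFF.algebraMap_poly (l := l) r
    rw [Polynomial.aeval_eq_sum_range' hr, Finset.sum_range] at h5
    rw [h5]
    refine Finset.sum_congr rfl fun n _ => ?_
    rw [Algebra.smul_def]
  unfold ncf
  simp only [if_true, one_ne_zero, if_false]
  rw [e1 p hp, e1 q hq, Algebra.smul_def, Algebra.smul_def, mul_one]
  rfl

theorem N_inj : Function.Injective (algebraMap (R l) (K l)) := IsFractionRing.injective (R l) (K l)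

theorem N_rep_smul {s : Sec l} {v : Fin 3 → R l} {u : R l} (h : IsRep l s v u) {μ : ℂ}
    (hμ : μ ≠ 0) :
    IsRep l s (fun i => algebraMap ℂ (R l) μ * v i) (algebraMap ℂ (R l) μ ^ 2 * u) := by
  obtain ⟨p, hp, h1, h2⟩ := h
  have hg : algebraMap ℂ (K l) μ ≠ 0 := by
    rw [Ne, FaithfulSMul.algebraMap_eq_zero_iff]
    exact hμ
  have hgR : algebraMap (R l) (K l) (algebraMap ℂ (R l) μ) = algebraMap ℂ (K l) μ :=
    (IsScalarTower.algebraMap_apply ℂ (R l) (K l) μ).symm
  refine ⟨⟨(algebraMap ℂ (K l) μ • p.1.1, algebraMap ℂ (K l) μ ^ 2 * p.1.2), ?_, ?_⟩, ?_, ?_, ?_⟩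
  · exact smul_ne_zero hg p.2.1
  · have h3 := p.2.2
    have h4 : quart (algebraMap ℂ (K l) μ • p.1.1) = algebraMap ℂ (K l) μ ^ 4 * quart p.1.1 := by
      unfold quart
      simp only [Pi.smul_apply, smul_eq_mul]
      ring
    show _ * (algebraMap ℂ (K l) μ ^ 2 * p.1.2) ^ 2 = quart (algebraMap ℂ (K l) μ • p.1.1)
    rw [h4, ← h3]
    ring
  · rw [← hp]
    refine (Quotient.sound (s := Sol.setoid l) ?_).symm
    exact ⟨algebraMap ℂ (K l) μ, hg, rfl, rfl⟩
  · show algebraMap ℂ (K l) μ • p.1.1 = _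
    rw [h1]
    funext i
    rw [Pi.smul_apply, smul_eq_mul, map_mul, hgR]
  · show _ * (algebraMap ℂ (K l) μ ^ 2 * p.1.2) = _
    rw [map_mul, map_pow, hgR, ← h2]
    ring

theorem N_rep_cross {s : Sec l} {v v' : Fin 3 → R l} {u u' : R l} (h : IsRep l s v u)
    (h' : IsRep l s v' u') (i : Fin 3) :
    (∀ j, v' j * v i = v j * v' i) ∧ u' * v i ^ 2 = u * v' i ^ 2 := by
  obtain ⟨p, hp, h1, h2⟩ := h
  obtain ⟨p', hp', h1', h2'⟩ := h'
  have h3 : (⟦p⟧ : Quotient (Sol.setoid l)) = ⟦p'⟧ := hp.trans hp'.symm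
  obtain ⟨g, hg, h4, h5⟩ := Quotient.exact h3
  have e1 : ∀ j, algebraMap (R l) (K l) (v' j) = g * algebraMap (R l) (K l) (v j) := by
    intro j
    have h6 := congrFun h4 j
    rw [h1, h1'] at h6
    exact h6
  have e2 : algebraMap (R l) (K l) u' = g ^ 2 * algebraMap (R l) (K l) u := by
    rw [← h2, ← h2', h5]
    ring
  constructor
  · intro j
    apply N_inj
    rw [map_mul, map_mul, e1, e1]
    ring
  · apply N_inj
    rw [map_mul, map_mul, map_pow, map_pow, e1, e2]
    ring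

theorem N_rep_sq {s : Sec l} {v : Fin 3 → R l} {u : R l} (h : IsRep l s v u) :
    u ^ 2 = EllFF.xR l * quart v := by
  obtain ⟨p, hp, h1, h2⟩ := h
  have h3 := p.2.2
  apply N_inj
  have h4 : algebraMap (R l) (K l) (quart v) = quart p.1.1 := by
    rw [h1]
    unfold quart
    simp only [map_add, map_pow]
  rw [map_pow, map_mul, h4, ← h3, ← h2]
  show _ = algebraMap (R l) (K l) (Pool.Agent.Lib.MP_8ae0c1_ag.xR l) * _
  ring

/-- The coordinates given by a representative. -/
def npt (P : Pt l) (f : Fin 4 → R l) (j : Fin 4) : ℂ :=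
  ev l P (f j) * (if j = 3 then P.1.1⁻¹ else 1)

/-- The weights of the coordinates. -/
def nwt (j : Fin 4) : ℕ := if j = 3 then 2 else 1

theorem N_coord_of {s : Sec l} {f : Fin 4 → R l}
    (h : IsRep l s (fun i => f (Fin.castSucc i)) (f 3)) (P : Pt l) (hP : P.1.1 ≠ 0)
    {i : Fin 3} (hi : ev l P (f i.castSucc) ≠ 0) {μ : ℂ} (hμ : μ ≠ 0) :
    Coord l s P (fun j => μ ^ nwt j * npt P f j) := by
  refine ⟨_, _, N_rep_smul h hμ, ⟨i, ?_⟩, ?_, ?_, ?_, ?_⟩
  · rw [map_mul, N_ev_c]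
    exact mul_ne_zero hμ hi
  · rw [map_mul, N_ev_c]
    simp [nwt, npt]
  · rw [map_mul, N_ev_c]
    simp [nwt, npt]
  · rw [map_mul, N_ev_c]
    simp [nwt, npt]
  · rw [map_mul, map_pow, N_ev_c]
    simp only [nwt, npt, if_true]
    field_simp

theorem N_coord_to {s : Sec l} {f : Fin 4 → R l}
    (h : IsRep l s (fun i => f (Fin.castSucc i)) (f 3)) (P : Pt l) (hP : P.1.1 ≠ 0)
    {i : Fin 3} (hi : ev l P (f i.castSucc) ≠ 0) {c : Fin 4 → ℂ} (hc : Coord l s P c) :
    ∃ μ : ℂ, ∀ j, c j = μ ^ nwt j * npt P f j := by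
  obtain ⟨v', u', h', -, c0, c1, c2, c3⟩ := hc
  obtain ⟨e1, e2⟩ := N_rep_cross h h' i
  refine ⟨ev l P (v' i) / ev l P (f i.castSucc), ?_⟩
  have e3 : ∀ j, ev l P (v' j) = ev l P (v' i) / ev l P (f i.castSucc) * ev l P (f j.castSucc) := by
    intro j
    have h3 := congrArg (ev l P) (e1 j)
    rw [map_mul, map_mul] at h3
    field_simp
    linear_combination h3
  have e4 : ev l P u' = (ev l P (v' i) / ev l P (f i.castSucc)) ^ 2 * ev l P (f 3) := by
    have h3 := congrArg (ev l P) e2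
    rw [map_mul, map_mul, map_pow, map_pow] at h3
    field_simp
    linear_combination h3
  generalize ev l P (v' i) / ev l P (f i.castSucc) = μ at e3 e4
  intro j
  fin_cases j
  · show c 0 = _
    rw [c0, e3]
    simp [nwt, npt]
  · show c 1 = _
    rw [c1, e3]
    simp [nwt, npt]
  · show c 2 = _
    rw [c2, e3]
    simp [nwt, npt]
  · show c 3 = _
    have h5 : c 3 = ev l P u' / P.1.1 := by
      rw [← c3]
      field_simp
    rw [h5, e4]
    show _ = μ ^ nwt 3 * npt P f 3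
    simp only [nwt, npt, if_true]
    rw [div_eq_mul_inv]
    ring

theorem N_npt_zero {s : Sec l} {f : Fin 4 → R l}
    (h : IsRep l s (fun i => f (Fin.castSucc i)) (f 3)) (P : Pt l)
    (h0 : ∀ i : Fin 3, ev l P (f i.castSucc) = 0) (j : Fin 4) : npt P f j = 0 := by
  have h1 : ev l P (f 3) = 0 := by
    have h2 := congrArg (ev l P) (N_rep_sq h)
    rw [map_pow, map_mul] at h2
    have h3 : ev l P (quart fun i : Fin 3 => f i.castSucc) = 0 := by
      unfold quart
      rw [map_add, map_add, map_pow, map_pow, map_pow, h0, h0, h0]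
      ring
    rw [h3, mul_zero] at h2
    exact pow_eq_zero_iff (by norm_num) |>.1 h2
  unfold npt
  refine Fin.lastCases ?_ (fun i => ?_) j
  · show ev l P (f 3) * _ = 0
    rw [h1, zero_mul]
  · rw [h0, zero_mul]

theorem N_eval_bind {σ τ : Type} (g : τ → MvPolynomial σ ℂ) (q : σ → ℂ) (G : MvPolynomial τ ℂ) :
    MvPolynomial.eval q (MvPolynomial.bind₁ g G) =
      MvPolynomial.eval (fun i => MvPolynomial.eval q (g i)) G := by
  induction G using MvPolynomial.induction_on with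
  | C a => simp
  | add p q hp hq => rw [map_add, map_add, map_add, hp, hq]
  | mul_X p i hp => rw [map_mul, map_mul, map_mul, hp, MvPolynomial.bind₁_X_right, MvPolynomial.eval_X]

/-- A polynomial in `μ ⋆ c` which vanishes for nonzero `μ` vanishes for all `μ`. -/
theorem N_dense {m : ℕ} (G : MvPolynomial (Fin m × Fin 4) ℂ) (c : Fin m × Fin 4 → ℂ)
    (h : ∀ μ : Fin m → ℂ, (∀ k, μ k ≠ 0) →
      MvPolynomial.eval (fun k => μ k.1 ^ nwt k.2 * c k) G = 0) (μ : Fin m → ℂ) :
    MvPolynomial.eval (fun k => μ k.1 ^ nwt k.2 * c k) G = 0 := by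
  have key : ∀ μ : Fin m → ℂ, MvPolynomial.eval μ (MvPolynomial.bind₁
      (fun k : Fin m × Fin 4 => MvPolynomial.X k.1 ^ nwt k.2 * MvPolynomial.C (c k)) G) =
      MvPolynomial.eval (fun k => μ k.1 ^ nwt k.2 * c k) G := by
    intro μ
    rw [N_eval_bind]
    simp only [map_mul, map_pow, MvPolynomial.eval_X, MvPolynomial.eval_C]
  have h1 : MvPolynomial.bind₁ (fun k : Fin m × Fin 4 =>
      MvPolynomial.X k.1 ^ nwt k.2 * MvPolynomial.C (c k)) G * ∏ k : Fin m, MvPolynomial.X k =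
      (0 : MvPolynomial (Fin m) ℂ) := by
    apply MvPolynomial.funext
    intro μ
    rw [map_mul, map_prod, map_zero]
    simp only [MvPolynomial.eval_X]
    by_cases hμ : ∀ k, μ k ≠ 0
    · rw [key, h μ hμ, zero_mul]
    · push Not at hμ
      obtain ⟨k, hk⟩ := hμ
      rw [Finset.prod_eq_zero (Finset.mem_univ k) hk, mul_zero]
  have h2 : (∏ k : Fin m, MvPolynomial.X k : MvPolynomial (Fin m) ℂ) ≠ 0 :=
    Finset.prod_ne_zero_iff.2 fun k _ => MvPolynomial.X_ne_zero k
  rw [← key, (mul_eq_zero.1 h1).resolve_right h2, map_zero]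

/-- The index set of the coefficients. -/
abbrev NS (d : ℕ) : Type := Fin 2 × Fin 4 × Fin 2 × Fin (d + 4)

/-- The functions with given coefficients. -/
def nfun (l : ℂ) {d : ℕ} (q : NS d → ℂ) (e : Fin 2) (j : Fin 4) : R l := ncf fun k => q (e, j, k)

/-- Pairs of representatives of a section. -/
def NT (l : ℂ) (d : ℕ) : Type :=
  {t : (NS d → ℂ) × SecD l d // (∀ e, IsRep l t.2.1 (fun i => nfun l t.1 e (Fin.castSucc i))
    (nfun l t.1 e 3)) ∧ ∀ P : Pt l, ∃ e, ∃ i : Fin 3, ev l P (nfun l t.1 e i.castSucc) ≠ 0}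

/-- The point of the spectrum. -/
def nspec {d : ℕ} (q : NS d → ℂ) : PrimeSpectrum (MvPolynomial (NS d) ℂ) :=
  ⟨RingHom.ker (MvPolynomial.eval q), RingHom.ker_isPrime _⟩

/-- The coordinates as polynomials in the coefficients. -/
def npol (P : Pt l) (d : ℕ) (e : Fin 2) (j : Fin 4) : MvPolynomial (NS d) ℂ :=
  (∑ n : Fin (d + 4), MvPolynomial.X (e, j, 0, n) * MvPolynomial.C (P.1.1 ^ (n : ℕ)) +
    (∑ n : Fin (d + 4), MvPolynomial.X (e, j, 1, n) * MvPolynomial.C (P.1.1 ^ (n : ℕ))) *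
      MvPolynomial.C P.1.2) * MvPolynomial.C (if j = 3 then P.1.1⁻¹ else 1)

theorem N_eval_npol (P : Pt l) {d : ℕ} (e : Fin 2) (j : Fin 4) (q : NS d → ℂ) :
    MvPolynomial.eval q (npol P d e j) = npt P (nfun l q e) j := by
  unfold npol npt nfun
  rw [N_ev_ncf]
  simp only [map_mul, map_add, map_sum, MvPolynomial.eval_X, MvPolynomial.eval_C]

theorem N_zero_iff {d m : ℕ} (P : Fin m → Pt0 l) (G : MvPolynomial (Fin m × Fin 4) ℂ)
    (t : NT l d) :
    t.1.2 ∈ zero l d m P G ↔ ∀ (e : Fin m → Fin 2) (μ : Fin m → ℂ),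
      MvPolynomial.eval (fun k => μ k.1 ^ nwt k.2 *
        npt (P k.1).1 (nfun l t.1.1 (e k.1)) k.2) G = 0 := by
  obtain ⟨⟨q, s⟩, hrep, hne⟩ := t
  dsimp only at hrep hne ⊢
  constructor
  · intro hs e μ
    classical
    -- first the case where all values are nonzero
    have h1 : ∀ e : Fin m → Fin 2, (∀ k, ∃ i : Fin 3, ev l (P k).1 (nfun l q (e k) i.castSucc) ≠ 0) →
        ∀ μ : Fin m → ℂ, MvPolynomial.eval (fun k => μ k.1 ^ nwt k.2 *
          npt (P k.1).1 (nfun l q (e k.1)) k.2) G = 0 := by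
      intro e he
      refine N_dense G (fun k => npt (P k.1).1 (nfun l q (e k.1)) k.2) fun μ hμ => ?_
      refine hs _ fun k => ?_
      obtain ⟨i, hi⟩ := he k
      exact N_coord_of (hrep (e k)) (P k).1 (P k).2 hi (hμ k)
    choose e' he' using fun k => hne (P k).1
    have h2 := h1 (fun k => if (∃ i : Fin 3, ev l (P k).1 (nfun l q (e k) i.castSucc) ≠ 0) then e k
      else e' k) (by
        intro k
        by_cases h : ∃ i : Fin 3, ev l (P k).1 (nfun l q (e k) i.castSucc) ≠ 0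
        · rw [if_pos h]
          exact h
        · rw [if_neg h]
          exact he' k) (fun k => if (∃ i : Fin 3, ev l (P k).1 (nfun l q (e k) i.castSucc) ≠ 0)
            then μ k else 0)
    refine Eq.trans (congrArg (fun z => MvPolynomial.eval z G) (funext fun k => ?_)) h2
    by_cases h : ∃ i : Fin 3, ev l (P k.1).1 (nfun l q (e k.1) i.castSucc) ≠ 0
    · rw [if_pos h, if_pos h]
    · rw [if_neg h, if_neg h]
      push Not at h
      rw [N_npt_zero (hrep (e k.1)) _ h, mul_zero, zero_pow (by unfold nwt; split_ifs <;> norm_num),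
        zero_mul]
  · intro h c hc
    choose e he using fun k => hne (P k).1
    choose i hi using he
    choose μ hμ using fun k => N_coord_to (hrep (e k)) (P k).1 (P k).2 (hi k) (hc k)
    exact Eq.trans (congrArg (fun z => MvPolynomial.eval z G) (funext fun k => hμ k.1 k.2)) (h e μ)

end NN

/-- LEAF N. -/
theorem noetherianSpace_SecD {l : ℂ} [Leg l] (d : ℕ) : NoetherianSpace (SecD l d) := by
  let _ : TopologicalSpace (NT l d) := TopologicalSpace.induced (fun t => nspec t.1.1) inferInstance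
  have hind : Topology.IsInducing (fun t : NT l d => nspec t.1.1) := ⟨rfl⟩
  have : NoetherianSpace (NT l d) := hind.noetherianSpace
  refine noetherianSpace_of_surjective (fun t : NT l d => t.1.2) ?_ ?_
  · refine continuous_generateFrom_iff.2 ?_
    rintro U ⟨m, P, G, rfl⟩
    rw [Set.preimage_compl, isOpen_compl_iff, hind.isClosed_iff]
    refine ⟨PrimeSpectrum.zeroLocus (Set.range fun em : (Fin m → Fin 2) × (Fin m → ℂ) =>
      MvPolynomial.bind₁ (fun k : Fin m × Fin 4 => MvPolynomial.C (em.2 k.1 ^ nwt k.2) *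
        npol (P k.1).1 d (em.1 k.1) k.2) G), PrimeSpectrum.isClosed_zeroLocus _, ?_⟩
    ext t
    rw [Set.mem_preimage, Set.mem_preimage, N_zero_iff, PrimeSpectrum.mem_zeroLocus]
    have key : ∀ em : (Fin m → Fin 2) × (Fin m → ℂ), MvPolynomial.bind₁ (fun k : Fin m × Fin 4 =>
        MvPolynomial.C (em.2 k.1 ^ nwt k.2) * npol (P k.1).1 d (em.1 k.1) k.2) G ∈
          (nspec t.1.1).asIdeal ↔ MvPolynomial.eval (fun k => em.2 k.1 ^ nwt k.2 *
            npt (P k.1).1 (nfun l t.1.1 (em.1 k.1)) k.2) G = 0 := by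
      intro em
      show _ ∈ RingHom.ker (MvPolynomial.eval t.1.1) ↔ _
      rw [RingHom.mem_ker, N_eval_bind]
      simp only [map_mul, MvPolynomial.eval_C, N_eval_npol]
    constructor
    · intro h e μ
      exact (key (e, μ)).1 (h ⟨(e, μ), rfl⟩)
    · rintro h _ ⟨em, rfl⟩
      exact (key em).2 (h em.1 em.2)
  · intro s
    obtain ⟨v, u, h1, h2, h3, h4⟩ := two_reps s
    have h5 : ∀ (e : Fin 2) (j : Fin 4), ∃ a : Fin 2 × Fin (d + 4) → ℂ,
        ncf a = (Fin.snoc (α := fun _ => R l) (v e) (u e) : Fin 4 → R l) j := by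
      intro e j
      refine N_exists_ncf ?_
      refine Fin.lastCases ?_ (fun i => ?_) j
      · rw [Fin.snoc_last]
        exact h3 e
      · rw [Fin.snoc_castSucc]
        have := h2 e i
        omega
    choose a ha using h5
    have h6 : ∀ e j, nfun l (fun k : NS d => a k.1 k.2.1 k.2.2) e j =
        (Fin.snoc (α := fun _ => R l) (v e) (u e) : Fin 4 → R l) j := fun e j => ha e j
    have h7 : ∀ e (i : Fin 3), nfun l (fun k : NS d => a k.1 k.2.1 k.2.2) e i.castSucc = v e i := by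
      intro e i
      rw [h6, Fin.snoc_castSucc]
    have h8 : ∀ e, nfun l (fun k : NS d => a k.1 k.2.1 k.2.2) e 3 = u e := by
      intro e
      rw [h6]
      exact Fin.snoc_last (α := fun _ => R l) _ _
    refine ⟨⟨(fun k : NS d => a k.1 k.2.1 k.2.2, s), ?_, ?_⟩, rfl⟩
    · intro e
      dsimp only
      rw [h8, show (fun i : Fin 3 => nfun l (fun k : NS d => a k.1 k.2.1 k.2.2) e i.castSucc) = v e
        from funext (h7 e)]
      exact h1 e
    · intro P
      obtain ⟨e, i, hi⟩ := h4 P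
      refine ⟨e, i, ?_⟩
      dsimp only
      rw [h7]
      exact hi

end Pool.Agent.Lib.MP_8ae0c1_agG
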