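import Pool.Agent.Lib.MP_8ae0c1_agG.Base

/-!
# MP_8ae0c1_ag, T7, leaf R: two representatives without common zero
-/

set_option autoImplicit false

open Pool.Agent.Lib.MP_8ae0c1_ag hiding xR yR
open EllFF

namespace Pool.Agent.Lib.MP_8ae0c1_agG

/-- The place of an affine point. -/
private def Reps_pt {l : ℂ} (P : Pt l) : Place l := Place.pt P.1.1 P.1.2 P.2

private theorem Reps_pt_ne {l : ℂ} (P : Pt l) : Reps_pt P ≠ Place.inf := by
  intro h
  simp [Reps_pt] at h

private theorem Reps_pt_inj {l : ℂ} {P Q : Pt l} (h : Reps_pt P = Reps_pt Q) : P = Q := by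
  simp only [Reps_pt, Place.pt.injEq] at h
  exact Subtype.ext (Prod.ext h.1 h.2)

private theorem Reps_exists_pt {l : ℂ} {P : Place l} (h : P ≠ Place.inf) : ∃ Q : Pt l, P = Reps_pt Q := by
  cases P with
  | inf => exact (h rfl).elim
  | pt a b hab => exact ⟨⟨(a, b), hab⟩, rfl⟩

private theorem Reps_ev {l : ℂ} (P : Pt l) (r : R l) : ev l P r = evR P.1.1 P.1.2 P.2 r := rfl

private theorem Reps_ev_iff {l : ℂ} [Leg l] (P : Pt l) (r : R l) :
    OrdGe (Reps_pt P) 1 (algebraMap (R l) (K l) r) ↔ ev l P r = 0 :=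
  ordGe_one_iff P.1.1 P.1.2 P.2 r

private theorem Reps_RL {l : ℂ} [Leg l] {P : Place l} (h : P ≠ Place.inf) (r : R l) :
    OrdGe P 0 (algebraMap (R l) (K l) r) := by
  cases P with
  | inf => exact (h rfl).elim
  | pt a b hab => exact ordGe_RL a b hab r

private theorem Reps_sq {l : ℂ} {s : Sec l} {v : Fin 3 → R l} {u : R l} (h : IsRep l s v u) :
    algebraMap (R l) (K l) u ^ 2 = xK l * quart (fun i => algebraMap (R l) (K l) (v i)) := by
  obtain ⟨p, -, hv, hu⟩ := h
  rw [← hv, ← p.2.2, ← hu]
  change (xK l * p.1.2) ^ 2 = xK l * (xK l * p.1.2 ^ 2)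
  ring

private theorem Reps_pole {l : ℂ} [Leg l] (r : R l) (n : ℕ) :
    pole l r ≤ n ↔ OrdGe Place.inf (-(n : ℤ)) (algebraMap (R l) (K l) r) := by
  by_cases hr : r = 0
  · subst hr
    refine ⟨fun _ => Or.inl (map_zero _), fun _ => ?_⟩
    have h := norm_repr (l := l) 0 0
    rw [map_zero, zero_mul, add_zero] at h
    unfold pole
    change (Algebra.norm (Polynomial ℂ) (0 : RL l)).natDegree ≤ n
    rw [h]
    simp
  · have h0 : algebraMap (R l) (K l) r ≠ 0 := by
      rw [Ne, IsFractionRing.to_map_eq_zero_iff]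
      exact hr
    have h1 : ord Place.inf (algebraMap (R l) (K l) r) = -(pole l r : ℤ) := ord_inf_RL hr
    constructor
    · intro h
      right
      rw [h1]
      omega
    · intro h
      have h2 := h.le h0
      rw [h1] at h2
      omega

private theorem Reps_half {l : ℂ} [Leg l] {P : Place l} {f : K l} {n m : ℤ} (h : OrdGe P n (f ^ 2))
    (hm : 2 * m ≤ n + 1) : OrdGe P m f := by
  by_cases hf : f = 0
  · exact Or.inl hf
  · have h1 := h.le (pow_ne_zero 2 hf)
    rw [ord_pow] at h1
    right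
    push_cast at h1
    omega

private theorem Reps_pow {l : ℂ} [Leg l] {P : Place l} {f : K l} {n : ℤ} (h : OrdGe P n f) (k : ℕ) :
    OrdGe P (k * n) (f ^ k) := by
  induction k with
  | zero =>
    rw [pow_zero]
    right
    rw [ord_one]
    simp
  | succ k ih =>
    rw [pow_succ]
    refine (ih.mul h).mono (le_of_eq ?_)
    push_cast
    ring

private theorem Reps_quart {l : ℂ} [Leg l] {P : Place l} {v : Fin 3 → K l} {n : ℤ}
    (h : ∀ i, OrdGe P n (v i)) : OrdGe P (4 * n) (quart v) := by
  have h1 : ∀ i, OrdGe P (4 * n) (v i ^ 4) := fun i => by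
    have := Reps_pow (h i) 4
    exact_mod_cast this
  exact ((h1 0).add (h1 1)).add (h1 2)

/-- The function `(y + y_Q) / (x - x_Q)` has simple poles at `Q` and at infinity. -/
private theorem Reps_g {l : ℂ} [Leg l] (Q : Pt l) : ∃ g : K l, g ≠ 0 ∧ ord Place.inf g = -1 ∧
    ord (Reps_pt Q) g = -1 ∧ ∀ P : Place l, P ≠ Place.inf → P ≠ Reps_pt Q → OrdGe P 0 g := by
  obtain ⟨⟨a, b⟩, hab⟩ := Q
  change b ^ 2 = a * (a - 1) * (a - l) at hab
  have hc : ∀ (P : Place l) (c : ℂ) (n : ℤ), n ≤ 0 → OrdGe P n (algebraMap ℂ (K l) c) :=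
    fun P c n hn => (OrdGe.const P c).mono hn
  have hy0 : yK l ≠ 0 := by
    intro h
    have h1 := ord_y_inf (l := l)
    rw [h, ord_zero] at h1
    omega
  have hy := ord_add_eq (Place.inf : Place l) (f := yK l) (g := algebraMap ℂ (K l) b) hy0
    (hc _ _ _ (by rw [ord_y_inf]; norm_num))
  have hx := ord_add_eq (Place.inf : Place l) (f := xK l) (g := -algebraMap ℂ (K l) a) xK_ne_zero
    ((hc _ _ _ (by rw [ord_x_inf]; norm_num)).neg)
  rw [← sub_eq_add_neg, ord_x_inf] at hx
  rw [ord_y_inf] at hy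
  have hyR : ∀ (a' b' : ℂ) (h' : b' ^ 2 = a' * (a' - 1) * (a' - l)),
      (OrdGe (Place.pt a' b' h') 1 (yK l + algebraMap ℂ (K l) b) ↔ b' + b = 0) := by
    intro a' b' h'
    have h1 := ordGe_one_iff a' b' h' (yR l + algebraMap ℂ (RL l) b)
    rw [map_add, map_add, ← IsScalarTower.algebraMap_apply ℂ (RL l) (KL l), AlgHom.commutes] at h1
    have h2 : evR a' b' h' (yR l) = b' := liftR_y _ _ _
    rw [h2] at h1
    exact h1
  have hyR0 : ∀ P : Place l, P ≠ Place.inf → OrdGe P 0 (yK l + algebraMap ℂ (K l) b) := by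
    intro P hP
    have h1 := Reps_RL hP (yR l + algebraMap ℂ (RL l) b)
    rw [map_add, ← IsScalarTower.algebraMap_apply ℂ (RL l) (KL l)] at h1
    exact h1
  refine ⟨(yK l + algebraMap ℂ (K l) b) / (xK l - algebraMap ℂ (K l) a), div_ne_zero hy.1 hx.1,
    ?_, ?_, ?_⟩
  · rw [ord_div _ hy.1 hx.1, hy.2, hx.2]
    norm_num
  · rw [ord_div _ hy.1 hx.1]
    change ord (Place.pt a b hab) (yK l + algebraMap ℂ (K l) b) -
      ord (Place.pt a b hab) (xK l - algebraMap ℂ (K l) a) = -1
    by_cases hb : b = 0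
    · rw [ord_xa_two a b hab hb]
      have h1 : yK l + algebraMap ℂ (K l) b = yK l := by
        rw [hb, map_zero, add_zero]
      rw [h1, ord_y_zero a b hab hb]
      norm_num
    · rw [ord_xa_one a b hab hb]
      have h1 := (hyR0 (Place.pt a b hab) (by simp)).le hy.1
      have h2 : ¬ OrdGe (Place.pt a b hab) 1 (yK l + algebraMap ℂ (K l) b) := by
        rw [hyR a b hab]
        intro h3
        apply hb
        linear_combination h3 / 2
      have h3 : ¬ (1 ≤ ord (Place.pt a b hab) (yK l + algebraMap ℂ (K l) b)) := fun h3 => h2 (Or.inr h3)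
      omega
  · intro P hP hPQ
    right
    rw [ord_div _ hy.1 hx.1]
    have h0 := (hyR0 P hP).le hy.1
    cases P with
    | inf => exact (hP rfl).elim
    | pt a' b' h' =>
      by_cases haa : a' = a
      · subst haa
        have hbb : b' ≠ b := by
          intro hbb
          subst hbb
          exact hPQ rfl
        have h1 : (b' - b) * (b' + b) = 0 := by
          linear_combination h' - hab
        have h2 : b' + b = 0 := by
          rcases mul_eq_zero.1 h1 with h1 | h1
          · exact (hbb (sub_eq_zero.1 h1)).elim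
          · exact h1
        have hb' : b' ≠ 0 := by
          intro hb'
          apply hbb
          rw [hb', zero_add] at h2
          rw [hb', h2]
        rw [ord_xa_one a' b' h' hb']
        have h3 := ((hyR a' b' h').2 h2).le hy.1
        omega
      · rw [ord_xa_ne a a' b' h' haa]
        omega

/-- LEAF R. Two representatives of a section without common zero: `(v, u)` from `HasRep l s d` and `(g v, g² u)` with
`g = (y + y_Q) / (x - x_Q)`. -/
theorem two_reps {l : ℂ} [Leg l] {d : ℕ} (s : SecD l d) :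
    ∃ (v : Fin 2 → Fin 3 → R l) (u : Fin 2 → R l), (∀ e, IsRep l s.1 (v e) (u e)) ∧
      (∀ e i, pole l (v e i) ≤ d + 2) ∧ (∀ e, pole l (u e) ≤ 2 * d + 5) ∧
      ∀ P : Pt l, ∃ e i, ev l P (v e i) ≠ 0 := by
  obtain ⟨s, hs⟩ := s
  obtain ⟨v, u, hrep, hpole⟩ := hs.1
  change ∃ (v : Fin 2 → Fin 3 → R l) (u : Fin 2 → R l), (∀ e, IsRep l s (v e) (u e)) ∧ _
  have hpole' : ∀ i, pole l (v i) ≤ d + 1 := by
    rcases hpole with h | h
    · exact fun i => (h i).trans (Nat.le_succ d)
    · exact h.1
  set vK : Fin 3 → K l := fun i => algebraMap (R l) (K l) (v i) with hvK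
  have hvK0 : vK ≠ 0 := by
    obtain ⟨p, -, hp, -⟩ := hrep
    rw [hvK, ← hp]
    exact p.2.1
  have hsum : ∑ᶠ P : Place l, mord P vK = -(d : ℤ) := (height_iff_rep hrep d).1 hs
  have hnn : ∀ P : Place l, P ≠ Place.inf → 0 ≤ mord P vK := fun P hP =>
    (le_mord_iff P hvK0 0).2 fun i => Reps_RL hP (v i)
  have hinf : -((d : ℤ) + 1) ≤ mord Place.inf vK := by
    rw [le_mord_iff _ hvK0]
    intro i
    have h := (Reps_pole (v i) (d + 1)).1 (hpole' i)
    exact_mod_cast h
  have hfin : (Function.support fun P : Place l => mord P vK).Finite := by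
    obtain ⟨i, hi⟩ := Function.ne_iff.1 hvK0
    refine ((ord_support (l := l) hi).union (Set.finite_singleton Place.inf)).subset ?_
    intro P hP
    by_cases hPi : P = Place.inf
    · exact Or.inr hPi
    · left
      intro h0
      apply hP
      have h1 := (mord_ordGe P hvK0 i).le hi
      have h2 := hnn P hPi
      change ord P (vK i) = 0 at h0
      change mord P vK = 0
      omega
  have key : ∀ T : Finset (Place l), Place.inf ∉ T →
      mord Place.inf vK + ∑ P ∈ T, mord P vK ≤ -(d : ℤ) := by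
    classical
    intro T hT
    have h1 : ∑ᶠ P : Place l, mord P vK = ∑ P ∈ insert Place.inf ((hfin.toFinset ∪ T).erase Place.inf), mord P vK := by
      refine finsum_eq_sum_of_support_subset _ ?_
      intro P hP
      rw [Finset.mem_coe, Finset.mem_insert, Finset.mem_erase, Finset.mem_union, Set.Finite.mem_toFinset]
      by_cases hPi : P = Place.inf
      · exact Or.inl hPi
      · exact Or.inr ⟨hPi, Or.inl hP⟩
    rw [← hsum, h1, Finset.sum_insert (Finset.notMem_erase _ _)]
    refine (add_le_add_iff_left _).2 (Finset.sum_le_sum_of_subset_of_nonneg ?_ ?_)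
    · intro P hP
      rw [Finset.mem_erase, Finset.mem_union]
      exact ⟨fun h => hT (h ▸ hP), Or.inr hP⟩
    · intro P hP _
      exact hnn P (Finset.mem_erase.1 hP).1
  have hu2 := Reps_sq hrep
  have hupole : pole l u ≤ 2 * d + 3 := by
    rw [Reps_pole]
    have h1 : OrdGe Place.inf (-2 + 4 * -((d : ℤ) + 1)) (algebraMap (R l) (K l) u ^ 2) := by
      rw [hu2]
      refine OrdGe.mul (Or.inr ord_x_inf.ge) (Reps_quart fun i => ?_)
      have h := (Reps_pole (v i) (d + 1)).1 (hpole' i)
      exact_mod_cast h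
    refine Reps_half h1 ?_
    push_cast
    omega
  have hgood : ∀ P : Pt l, mord (Reps_pt P) vK = 0 → ∃ i, ev l P (v i) ≠ 0 := by
    intro P hP
    obtain ⟨i, hi, hi2⟩ := mord_attained (Reps_pt P) hvK0
    refine ⟨i, fun h0 => ?_⟩
    have h1 := ((Reps_ev_iff P (v i)).2 h0).le hi
    change 1 ≤ ord (Reps_pt P) (vK i) at h1
    omega
  by_cases hQ : ∃ Q : Pt l, mord (Reps_pt Q) vK ≠ 0
  · obtain ⟨Q, hQ⟩ := hQ
    have hQ1 : mord (Reps_pt Q) vK = 1 := by
      have h1 := key {Reps_pt Q} (by
        rw [Finset.mem_singleton]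
        exact fun h => Reps_pt_ne Q h.symm)
      rw [Finset.sum_singleton] at h1
      have h2 := hnn _ (Reps_pt_ne Q)
      omega
    have hother : ∀ P : Pt l, P ≠ Q → mord (Reps_pt P) vK = 0 := by
      classical
      intro P hPQ
      have h1 := key {Reps_pt P, Reps_pt Q} (by
        rw [Finset.mem_insert, Finset.mem_singleton]
        rintro (h | h)
        · exact Reps_pt_ne P h.symm
        · exact Reps_pt_ne Q h.symm)
      rw [Finset.sum_pair (fun h => hPQ (Reps_pt_inj h))] at h1
      have h2 := hnn _ (Reps_pt_ne P)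
      omega
    obtain ⟨g, hg0, hginf, hgQ, hgo⟩ := Reps_g Q
    have hgv : ∀ i, ∀ P : Place l, P ≠ Place.inf → OrdGe P 0 (g * vK i) := by
      intro i P hP
      by_cases hPQ : P = Reps_pt Q
      · subst hPQ
        have h1 : OrdGe (Reps_pt Q) (-1) g := Or.inr hgQ.ge
        have h2 : OrdGe (Reps_pt Q) 1 (vK i) := by
          have := mord_ordGe (Reps_pt Q) hvK0 i
          rwa [hQ1] at this
        have h3 := h1.mul h2
        rwa [show (-1 : ℤ) + 1 = 0 by norm_num] at h3
      · have h3 := (hgo P hP hPQ).mul (Reps_RL hP (v i))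
        rwa [add_zero] at h3
    have hqg : quart (g • vK) = g ^ 4 * quart vK := by
      unfold quart
      simp only [Pi.smul_apply, smul_eq_mul]
      ring
    have hgu2 : (g ^ 2 * algebraMap (R l) (K l) u) ^ 2 = xK l * quart (g • vK) := by
      rw [hqg, mul_pow, hu2]
      ring
    have hgu : ∀ P : Place l, P ≠ Place.inf → OrdGe P 0 (g ^ 2 * algebraMap (R l) (K l) u) := by
      intro P hP
      refine Reps_half (n := 0) ?_ (by norm_num)
      rw [hgu2]
      have h1 := OrdGe.mul (Reps_RL hP (EllFF.xR l)) (Reps_quart (v := g • vK) (n := 0) (fun i => hgv i P hP))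
      rwa [mul_zero, add_zero] at h1
    have hex : ∀ i, ∃ r : R l, algebraMap (R l) (K l) r = g * vK i := fun i =>
      (mem_RL_iff (g * vK i)).2 (hgv i)
    choose v' hv' using hex
    obtain ⟨u', hu'⟩ : ∃ r : R l, algebraMap (R l) (K l) r = g ^ 2 * algebraMap (R l) (K l) u :=
      (mem_RL_iff _).2 hgu
    have hrep' : IsRep l s v' u' := by
      obtain ⟨p, hp, hpv, hpu⟩ := hrep
      refine ⟨⟨(g • p.1.1, g ^ 2 * p.1.2), smul_ne_zero hg0 p.2.1, ?_⟩, ?_, ?_, ?_⟩
      · change algebraMap (R l) (K l) (EllFF.xR l) * (g ^ 2 * p.1.2) ^ 2 = quart (g • p.1.1)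
        have h1 : quart (g • p.1.1) = g ^ 4 * quart p.1.1 := by
          rw [hpv]
          exact hqg
        rw [h1, ← p.2.2]
        change _ = g ^ 4 * (algebraMap (R l) (K l) (EllFF.xR l) * p.1.2 ^ 2)
        ring
      · rw [← hp]
        refine Quotient.sound ?_
        refine Setoid.symm ?_
        exact ⟨g, hg0, rfl, rfl⟩
      · funext i
        change g • p.1.1 i = algebraMap (R l) (K l) (v' i)
        rw [hv', hpv, smul_eq_mul]
      · rw [hu', ← hpu]
        change _ * (g ^ 2 * p.1.2) = _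
        ring
    refine ⟨![v, v'], ![u, u'], ?_, ?_, ?_, ?_⟩
    · intro e
      fin_cases e
      · exact hrep
      · exact hrep'
    · intro e i
      fin_cases e
      · exact (hpole' i).trans (by omega)
      · change pole l (v' i) ≤ d + 2
        rw [Reps_pole, hv']
        have h1 : OrdGe Place.inf (-1) g := Or.inr hginf.ge
        have h2 := (Reps_pole (v i) (d + 1)).1 (hpole' i)
        refine (h1.mul h2).mono (le_of_eq ?_)
        push_cast
        ring
    · intro e
      fin_cases e
      · exact hupole.trans (by omega)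
      · change pole l u' ≤ 2 * d + 5
        rw [Reps_pole, hu']
        have h1 : OrdGe Place.inf (-1) g := Or.inr hginf.ge
        have h2 := (Reps_pole u (2 * d + 3)).1 hupole
        refine ((Reps_pow h1 2).mul h2).mono (le_of_eq ?_)
        push_cast
        ring
    · intro P
      by_cases hPQ : P = Q
      · subst hPQ
        have hgv0 : g • vK ≠ 0 := smul_ne_zero hg0 hvK0
        have h1 : mord (Reps_pt P) (g • vK) = 0 := by
          rw [mord_smul _ hvK0 hg0, hgQ, hQ1]
          norm_num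
        obtain ⟨i, hi, hi2⟩ := mord_attained (Reps_pt P) hgv0
        refine ⟨1, i, fun h0 => ?_⟩
        change ev l P (v' i) = 0 at h0
        have h2 := (Reps_ev_iff P (v' i)).2 h0
        rw [hv'] at h2
        have h3 := h2.le hi
        change 1 ≤ ord (Reps_pt P) ((g • vK) i) at h3
        omega
      · obtain ⟨i, hi⟩ := hgood P (hother P hPQ)
        exact ⟨0, i, hi⟩
  · push Not at hQ
    refine ⟨fun _ => v, fun _ => u, fun _ => hrep, fun _ i => (hpole' i).trans (by omega),
      fun _ => hupole.trans (by omega), fun P => ?_⟩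
    obtain ⟨i, hi⟩ := hgood P (hQ P)
    exact ⟨0, i, hi⟩

end Pool.Agent.Lib.MP_8ae0c1_agG
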