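import Pool.Agent.Lib.MP_8ae0c1_agG.Noeth
import Pool.Agent.Lib.MP_8ae0c1_agG.Ev
import Pool.Agent.Lib.MP_8ae0c1_agH.Coord

/-!
# MP_8ae0c1_ag, T7: values of sections
-/

set_option autoImplicit false

open Pool.Agent.Lib.MP_8ae0c1_ag hiding xR yR
open EllFF

namespace Pool.Agent.Lib.MP_8ae0c1_agG

variable {l : ℂ}

theorem coord_of_rep {s : Sec l} {v : Fin 3 → R l} {u : R l} (h : IsRep l s v u) (P : Pt0 l)
    (hP : ∃ i, ev l P.1 (v i) ≠ 0) :
    Coord l s P.1 ![ev l P.1 (v 0), ev l P.1 (v 1), ev l P.1 (v 2), ev l P.1 u / P.1.1.1] := by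
  refine ⟨v, u, h, hP, rfl, rfl, rfl, ?_⟩
  show P.1.1.1 * (ev l P.1 u / P.1.1.1) = ev l P.1 u
  exact mul_div_cancel₀ _ P.2

theorem exists_coord [Leg l] {d : ℕ} (s : SecD l d) (P : Pt0 l) :
    ∃ c : Fin 4 → ℂ, Coord l s.1 P.1 c := by
  obtain ⟨v, u, h, -, -, h1⟩ := two_reps s
  obtain ⟨e, hP⟩ := h1 P.1
  exact ⟨_, coord_of_rep (h e) P hP⟩

theorem mem_lin_iff {d : ℕ} {s : SecD l d} {v : Fin 3 → R l} {u : R l} (h : IsRep l s.1 v u)
    {P : Pt0 l} (hP : ∃ i, ev l P.1 (v i) ≠ 0) (a : Fin 3 → ℂ) :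
    s ∈ lin d P a ↔ dot a (fun i => ev l P.1 (v i)) = 0 := by
  have h1 := coord_of_rep h P hP
  constructor
  · intro hs
    exact hs _ h1
  · intro hd c hc
    obtain ⟨b, hb, h2⟩ := MP_8ae0c1_agH.coord_unique P.2 h1 hc
    have e0 : c 0 = b * ev l P.1 (v 0) := by simpa [MP_8ae0c1_agH.wtt] using h2 0
    have e1 : c 1 = b * ev l P.1 (v 1) := by simpa [MP_8ae0c1_agH.wtt] using h2 1
    have e2 : c 2 = b * ev l P.1 (v 2) := by simpa [MP_8ae0c1_agH.wtt] using h2 2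
    have h3 : a 0 * ev l P.1 (v 0) + a 1 * ev l P.1 (v 1) + a 2 * ev l P.1 (v 2) = 0 := hd
    rw [e0, e1, e2]
    linear_combination b * h3

theorem rep_rep {s : Sec l} {v v' : Fin 3 → R l} {u u' : R l} (h : IsRep l s v u)
    (h' : IsRep l s v' u') : ∃ g : K l, g ≠ 0 ∧
      (∀ i, algebraMap (R l) (K l) (v' i) = g * algebraMap (R l) (K l) (v i)) ∧
      algebraMap (R l) (K l) u' = g ^ 2 * algebraMap (R l) (K l) u := by
  obtain ⟨p, hp, hv, hu⟩ := h
  obtain ⟨p', hp', hv', hu'⟩ := h'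
  obtain ⟨g, hg, e1, e2⟩ : Sol.Rel l p p' := Quotient.exact (hp.trans hp'.symm)
  refine ⟨g, hg, fun m => ?_, ?_⟩
  · have h1 := congrFun e1 m
    rw [hv', hv] at h1
    exact h1
  · rw [← hu', ← hu, e2]
    ring

theorem mem_plane_iff {d : ℕ} {s : SecD l d} {v : Fin 3 → R l} {u : R l} (h : IsRep l s.1 v u)
    (a : Fin 3 → ℂ) : s ∈ plane l d a ↔ dot a v = 0 := by
  constructor
  · intro hs
    by_contra hne
    have h1 := finite_zeros hne
    refine infinite_pt (l := l) {0} (Set.finite_singleton 0) (h1.subset ?_)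
    intro P hP
    show ev l P (dot a v) = 0
    rw [ev_dot]
    by_cases hv : ∃ i, ev l P (v i) ≠ 0
    · exact (mem_lin_iff (P := ⟨P, hP⟩) h hv _).1 (hs _)
    · push Not at hv
      simp only [dot, hv, mul_zero, add_zero]
  · intro hd P c hc
    obtain ⟨v', u', h', -, c0, c1, c2, -⟩ := hc
    obtain ⟨g, -, hg, -⟩ := rep_rep h h'
    have h1 : dot a v' = 0 := by
      apply IsFractionRing.injective (R l) (K l)
      have h2 := congrArg (algebraMap (R l) (K l)) hd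
      simp only [dot, map_add, map_mul, map_zero, hg] at h2 ⊢
      linear_combination g * h2
    have h3 := congrArg (ev l P.1) h1
    rw [ev_dot, map_zero] at h3
    rw [c0, c1, c2]
    exact h3

end Pool.Agent.Lib.MP_8ae0c1_agG
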